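import Pool.Agent.H259.RH.Alg

/-!
# Matrices of polynomials in a quotient algebra
-/

set_option autoImplicit false

open Polynomial

namespace Pool.Agent.H259.HA

open Pool.Agent.H259.RH

section
variable {Q : Type} [Ring Q] [Algebra ℂ Q] {s k : Q} {u : Circle → Q}

/-- `s` acts on `y` from the left as one -/
lemma left' (h : Rel s k u) (z : Circle) {y : Q} (hy : s * y = y) (p : ℂ[X]) :
    aeval s p * (u z * y) = (p.eval ((z⁻¹ : Circle) : ℂ)) • (u z * y) := by
  refine eig_left ?_ p
  rw [← mul_assoc, h.su, smul_mul_assoc, mul_assoc, hy]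

lemma right' (h : Rel s k u) (z : Circle) {y : Q} (hy : y * s = y) (p : ℂ[X]) :
    (y * u z⁻¹) * aeval s p = (p.eval ((z⁻¹ : Circle) : ℂ)) • (y * u z⁻¹) := by
  refine eig_right ?_ p
  rw [mul_assoc, h.us, mul_smul_comm, ← mul_assoc, hy]

lemma cross' (h : Rel s k u) {z : Circle} (hz : z ≠ 1) {x y : Q} (hx : x * s = x)
    (hy : s * y = y) : x * u z * y = 0 := by
  have h1 : x * u z * y = (z : ℂ) • (x * u z * y) := by
    calc x * u z * y = x * (u z * (s * y)) := by rw [hy, mul_assoc]
      _ = x * ((u z * s) * y) := by rw [mul_assoc (u z)]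
      _ = (z : ℂ) • (x * s * u z * y) := by
          rw [h.us, smul_mul_assoc, mul_smul_comm, ← mul_assoc, ← mul_assoc]
      _ = _ := by rw [hx]
  have h2 : (1 - (z : ℂ)) • (x * u z * y) = 0 := by
    rw [sub_smul, one_smul, ← h1, sub_self]
  rcases smul_eq_zero.1 h2 with h3 | h3
  · exfalso
    apply hz
    apply Circle.ext
    rw [Circle.coe_one]
    exact (sub_eq_zero.1 h3).symm
  · exact h3

lemma poly_left (h : Rel s k u) {f : ℂ[X]} (hf : f.eval 0 = 0) : s * aeval k f = aeval k f := by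
  have h0 : (X : ℂ[X]) ∣ f := by rw [X_dvd_iff, coeff_zero_eq_eval_zero, hf]
  obtain ⟨g, rfl⟩ := h0
  rw [map_mul, aeval_X, ← mul_assoc, h.sk]

lemma poly_right (h : Rel s k u) {f : ℂ[X]} (hf : f.eval 0 = 0) : aeval k f * s = aeval k f := by
  have h0 : (X : ℂ[X]) ∣ f := by rw [X_dvd_iff, coeff_zero_eq_eval_zero, hf]
  obtain ⟨g, rfl⟩ := h0
  rw [mul_comm, map_mul, aeval_X, mul_assoc, h.ks]

section
variable {ι : Type} [Fintype ι] [DecidableEq ι] (z : ι → Circle)

/-- the operator with the symbol `F` -/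
noncomputable def th (k : Q) (u : Circle → Q) (z : ι → Circle) (F : Matrix ι ι ℂ[X]) : Q :=
  ∑ i, ∑ j, u (z i) * aeval k (F i j) * u (z j)⁻¹

/-- symbols vanishing at zero -/
def Van (F : Matrix ι ι ℂ[X]) : Prop := ∀ i j, (F i j).eval 0 = 0

omit [DecidableEq ι] in
lemma Van.mul {F G : Matrix ι ι ℂ[X]} (hF : Van F) : Van (F * G) := by
  intro i j
  rw [Matrix.mul_apply, eval_finsetSum]
  refine Finset.sum_eq_zero fun l _ => ?_
  rw [eval_mul, hF, zero_mul]

omit [Fintype ι] [DecidableEq ι] in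
lemma Van.add {F G : Matrix ι ι ℂ[X]} (hF : Van F) (hG : Van G) : Van (F + G) := by
  intro i j
  rw [Matrix.add_apply, eval_add, hF, hG, add_zero]

omit [Fintype ι] [DecidableEq ι] in
lemma Van.smul {F : Matrix ι ι ℂ[X]} (hF : Van F) (c : ℂ) : Van (c • F) := by
  intro i j
  rw [Matrix.smul_apply, eval_smul, hF, smul_zero]

lemma Van.pow {F : Matrix ι ι ℂ[X]} (hF : Van F) {n : ℕ} (hn : n ≠ 0) : Van (F ^ n) := by
  obtain ⟨m, rfl⟩ := Nat.exists_eq_succ_of_ne_zero hn
  rw [pow_succ']
  exact hF.mul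

omit [DecidableEq ι] in
lemma th_add (F G : Matrix ι ι ℂ[X]) : th k u z (F + G) = th k u z F + th k u z G := by
  unfold th
  simp only [Matrix.add_apply, map_add, mul_add, add_mul, Finset.sum_add_distrib]

omit [DecidableEq ι] in
lemma th_smul (c : ℂ) (F : Matrix ι ι ℂ[X]) : th k u z (c • F) = c • th k u z F := by
  unfold th
  simp only [Matrix.smul_apply, map_smul, mul_smul_comm, smul_mul_assoc, Finset.smul_sum]

lemma th_mul (h : Rel s k u) (hz : Function.Injective z) {F G : Matrix ι ι ℂ[X]} (hF : Van F)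
    (hG : Van G) : th k u z F * th k u z G = th k u z (F * G) := by
  have key : ∀ i j l m, (u (z i) * aeval k (F i j) * u (z j)⁻¹) *
      (u (z l) * aeval k (G l m) * u (z m)⁻¹) =
      if j = l then u (z i) * aeval k (F i j * G j m) * u (z m)⁻¹ else 0 := by
    intro i j l m
    have e : (u (z i) * aeval k (F i j) * u (z j)⁻¹) * (u (z l) * aeval k (G l m) * u (z m)⁻¹) =
        u (z i) * (aeval k (F i j) * (u (z j)⁻¹ * u (z l)) * aeval k (G l m)) * u (z m)⁻¹ := by
      simp only [mul_assoc]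
    rw [e, h.umul]
    split_ifs with hjl
    · subst hjl
      rw [inv_mul_cancel, h.uone, mul_one, map_mul]
    · rw [cross' h _ (poly_right h (hF i j)) (poly_left h (hG l m)), mul_zero, zero_mul]
      intro h1
      apply hjl
      apply hz
      exact (inv_mul_eq_one.1 h1)
  unfold th
  simp_rw [Finset.sum_mul, Finset.mul_sum, key]
  refine Finset.sum_congr rfl fun i _ => ?_
  have e1 : ∀ j : ι, ∑ l, ∑ m, (if j = l then u (z i) * aeval k (F i j * G j m) * u (z m)⁻¹ else 0)
      = ∑ m, u (z i) * aeval k (F i j * G j m) * u (z m)⁻¹ := by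
    intro j
    rw [Finset.sum_eq_single j]
    · simp
    · intro l _ hl
      simp [Ne.symm hl]
    · simp
  simp_rw [e1]
  rw [Finset.sum_comm]
  refine Finset.sum_congr rfl fun m _ => ?_
  rw [Matrix.mul_apply, map_sum, Finset.mul_sum, Finset.sum_mul]

lemma th_pow (h : Rel s k u) (hz : Function.Injective z) {F : Matrix ι ι ℂ[X]} (hF : Van F)
    {n : ℕ} (hn : n ≠ 0) : th k u z F ^ n = th k u z (F ^ n) := by
  induction n with
  | zero => exact absurd rfl hn
  | succ n ih =>
    rcases Nat.eq_zero_or_pos n with h0 | h0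
    · subst h0
      simp
    · rw [pow_succ, ih h0.ne', th_mul z h hz (hF.pow h0.ne') hF, ← pow_succ]

/-- the main intertwining relation -/
lemma th_main (h : Rel s k u) (hz : Function.Injective z) {F : Matrix ι ι ℂ[X]} (hF : Van F)
    (i : ι) : (u (z i)⁻¹ * aeval s (eta z i)) * th k u z F =
      ∑ m, aeval k (F i m) * (u (z m)⁻¹ * aeval s (eta z m)) := by
  have l1 : ∀ m, aeval k (F i m) * (u (z m)⁻¹ * aeval s (eta z m)) =
      aeval k (F i m) * u (z m)⁻¹ := by
    intro m
    rw [← mul_assoc, right' h _ (poly_right h (hF i m)), eta_self hz, one_smul]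
  simp_rw [l1]
  unfold th
  rw [Finset.mul_sum, Finset.sum_eq_single i]
  · rw [Finset.mul_sum]
    refine Finset.sum_congr rfl fun m _ => ?_
    calc u (z i)⁻¹ * aeval s (eta z i) * (u (z i) * aeval k (F i m) * u (z m)⁻¹)
        = u (z i)⁻¹ * (aeval s (eta z i) * (u (z i) * aeval k (F i m))) * u (z m)⁻¹ := by
          simp only [mul_assoc]
      _ = (u (z i)⁻¹ * u (z i)) * aeval k (F i m) * u (z m)⁻¹ := by
          rw [left' h _ (poly_left h (hF i m)), eta_self hz, one_smul]
          simp only [mul_assoc]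
      _ = _ := by rw [h.umul, inv_mul_cancel, h.uone, one_mul]
  · intro j _ hj
    rw [Finset.mul_sum]
    refine Finset.sum_eq_zero fun m _ => ?_
    calc u (z i)⁻¹ * aeval s (eta z i) * (u (z j) * aeval k (F j m) * u (z m)⁻¹)
        = u (z i)⁻¹ * (aeval s (eta z i) * (u (z j) * aeval k (F j m))) * u (z m)⁻¹ := by
          simp only [mul_assoc]
      _ = 0 := by
          rw [left' h _ (poly_left h (hF j m)), eta_ne (Ne.symm hj), zero_smul, mul_zero, zero_mul]
  · simp

/-- compressions -/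
lemma th_comp (h : Rel s k u) (hz : Function.Injective z) {F : Matrix ι ι ℂ[X]} (hF : Van F)
    (i j : ι) : k * u (z i)⁻¹ * th k u z F * (u (z j) * k) = aeval k (X * F i j * X) := by
  unfold th
  have key : ∀ l m, k * u (z i)⁻¹ * (u (z l) * aeval k (F l m) * u (z m)⁻¹) * (u (z j) * k) =
      if l = i ∧ m = j then aeval k (X * F i j * X) else 0 := by
    intro l m
    have e : k * u (z i)⁻¹ * (u (z l) * aeval k (F l m) * u (z m)⁻¹) * (u (z j) * k) =
        (k * (u (z i)⁻¹ * u (z l)) * aeval k (F l m)) * (u (z m)⁻¹ * u (z j)) * k := by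
      simp only [mul_assoc]
    rw [e, h.umul, h.umul]
    by_cases hl : l = i
    · subst hl
      rw [inv_mul_cancel, h.uone, mul_one]
      by_cases hm : m = j
      · subst hm
        rw [inv_mul_cancel, h.uone, mul_one, if_pos ⟨rfl, rfl⟩, map_mul, map_mul, aeval_X]
      · rw [if_neg (fun hh => hm hh.2)]
        refine cross' h ?_ ?_ h.sk
        · intro h1
          exact hm (hz (inv_mul_eq_one.1 h1))
        · rw [mul_assoc, poly_right h (hF l m)]
    · rw [if_neg (fun hh => hl hh.1), cross' h _ h.ks (poly_left h (hF l m)), zero_mul, zero_mul]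
      intro h1
      exact hl (hz (inv_mul_eq_one.1 h1)).symm
  rw [Finset.mul_sum, Finset.sum_mul]
  simp_rw [Finset.mul_sum, Finset.sum_mul, key]
  rw [Finset.sum_eq_single i]
  · rw [Finset.sum_eq_single j]
    · simp
    · intro m _ hm
      rw [if_neg (fun hh => hm hh.2)]
    · simp
  · intro l _ hl
    refine Finset.sum_eq_zero fun m _ => ?_
    rw [if_neg (fun hh => hl hh.1)]
  · simp

end

end

end Pool.Agent.H259.HA
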