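import Pool.Agent.H259.RH.Diag

/-!
# The eigenvalues of a polynomial family of two by two matrices lie on a rectifiable curve
-/

set_option autoImplicit false

open Set Polynomial

namespace Pool.Agent.H259.HA

open Pool.Agent.H259.RH

/-- Lipschitz images of intervals -/
lemma lip_loop {ψ : ℝ → ℂ} {L : NNReal} (hψ : LipschitzWith L ψ) {V : ℝ} (hV : 0 ≤ V) :
    LoopSet (ψ '' Icc 0 V) := by
  set B : ℝ → ℝ := fun t => min (cl (3 * t)) (cl (3 - 3 * t)) with hB
  set G : ℝ → ℂ := fun t => ψ (V * cl (3 * t - 1)) with hG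
  have ha : LipschitzWith 3 (fun t : ℝ => 3 * t) := by
    refine LipschitzWith.of_dist_le_mul fun x y => ?_
    rw [Real.dist_eq, Real.dist_eq, ← mul_sub, abs_mul]
    simp
  have hb : LipschitzWith 3 (fun t : ℝ => 3 - 3 * t) := by
    refine LipschitzWith.of_dist_le_mul fun x y => ?_
    rw [Real.dist_eq, Real.dist_eq]
    have : 3 - 3 * x - (3 - 3 * y) = -(3 * (x - y)) := by ring
    rw [this, abs_neg, abs_mul]
    simp
  have hc : LipschitzWith 3 (fun t : ℝ => 3 * t - 1) := by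
    refine LipschitzWith.of_dist_le_mul fun x y => ?_
    rw [Real.dist_eq, Real.dist_eq]
    have : 3 * x - 1 - (3 * y - 1) = 3 * (x - y) := by ring
    rw [this, abs_mul]
    simp
  have hBL : LipschitzWith 3 B := by
    have h1 := (cl_lip.comp ha).min (cl_lip.comp hb)
    simpa using h1
  have hVL : LipschitzWith (Real.toNNReal V) (fun t : ℝ => V * t) := by
    refine LipschitzWith.of_dist_le_mul fun x y => ?_
    rw [Real.dist_eq, Real.dist_eq, ← mul_sub, abs_mul, abs_of_nonneg hV, Real.coe_toNNReal _ hV]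
  obtain ⟨L', hGL⟩ : ∃ L' : NNReal, LipschitzWith L' G :=
    ⟨_, hψ.comp (hVL.comp (cl_lip.comp hc))⟩
  have hcl : ∀ t, |cl t| ≤ 1 := by
    intro t
    unfold cl
    rw [abs_of_nonneg (le_max_left _ _)]
    exact max_le zero_le_one (min_le_left _ _)
  have hcl0 : ∀ t, 0 ≤ cl t := fun t => le_max_left _ _
  have hcl1 : ∀ t, cl t ≤ 1 := fun t => max_le zero_le_one (min_le_left _ _)
  have hGb : ∀ t, ‖G t‖ ≤ ‖ψ 0‖ + L * V := by
    intro t
    have h1 := hψ.dist_le_mul (V * cl (3 * t - 1)) 0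
    rw [dist_eq_norm, dist_zero_right, norm_mul, Real.norm_eq_abs, Real.norm_eq_abs,
      abs_of_nonneg hV] at h1
    have h2 : ‖G t‖ ≤ ‖G t - ψ 0‖ + ‖ψ 0‖ := by
      have := norm_add_le (G t - ψ 0) (ψ 0)
      rwa [sub_add_cancel] at this
    have h3 : (L : ℝ) * (V * |cl (3 * t - 1)|) ≤ L * V := by
      refine mul_le_mul_of_nonneg_left ?_ L.2
      calc V * |cl (3 * t - 1)| ≤ V * 1 := mul_le_mul_of_nonneg_left (hcl _) hV
        _ = V := mul_one V
    linarith
  have hB0 : ∀ t, 0 ≤ B t := fun t => le_min (hcl0 _) (hcl0 _)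
  have hB1 : ∀ t, B t ≤ 1 := fun t => (min_le_left _ _).trans (hcl1 _)
  set M : ℝ := ‖ψ 0‖ + L * V with hM
  have hM0 : 0 ≤ M := by positivity
  refine ⟨fun t => (B t : ℂ) * G t, L' + 3 * Real.toNNReal M, ?_, ?_, ?_, ?_⟩
  · refine LipschitzWith.of_dist_le_mul fun x y => ?_
    have e : (B x : ℂ) * G x - (B y : ℂ) * G y = (B x : ℂ) * (G x - G y) +
        ((B x - B y : ℝ) : ℂ) * G y := by push_cast; ring
    rw [dist_eq_norm, e]
    have h1 := hGL.dist_le_mul x y
    have h2 := hBL.dist_le_mul x y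
    rw [dist_eq_norm] at h1
    rw [Real.dist_eq] at h2
    refine (norm_add_le _ _).trans ?_
    rw [norm_mul, norm_mul, Complex.norm_real, Complex.norm_real, Real.norm_eq_abs, Real.norm_eq_abs,
      abs_of_nonneg (hB0 x)]
    push_cast
    rw [Real.coe_toNNReal _ hM0]
    have h3 : B x * ‖G x - G y‖ ≤ L' * dist x y := by
      calc B x * ‖G x - G y‖ ≤ 1 * ‖G x - G y‖ :=
            mul_le_mul_of_nonneg_right (hB1 x) (norm_nonneg _)
        _ ≤ _ := by rw [one_mul]; exact h1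
    have h4 : |B x - B y| * ‖G y‖ ≤ (3 * dist x y) * M := by
      refine mul_le_mul ?_ (hGb y) (norm_nonneg _) (by positivity)
      simpa using h2
    linarith
  · simp only [hB, mul_zero, cl_of_le (le_refl (0 : ℝ))]
    rw [min_eq_left (hcl0 _)]
    simp
  · have h1 : B 1 = 0 := by
      rw [hB]
      have h2 : cl (3 - 3 * 1) = 0 := cl_of_le (by norm_num)
      simp only
      rw [h2, min_eq_right (hcl0 _)]
    simp only [h1]
    simp
  · rintro _ ⟨v, hv, rfl⟩
    rcases hV.eq_or_lt with h0 | h0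
    · have hv0 : v = 0 := le_antisymm (by rw [h0]; exact hv.2) hv.1
      refine ⟨1 / 2, ⟨by norm_num, by norm_num⟩, ?_⟩
      have h1 : B (1 / 2) = 1 := by
        rw [hB]
        simp only
        rw [cl_of_ge (by norm_num), cl_of_ge (by norm_num), min_self]
      simp only [h1, hG, ← h0, zero_mul, hv0]
      simp
    · refine ⟨(v / V + 1) / 3, ?_, ?_⟩
      · have h2 : 0 ≤ v / V := div_nonneg hv.1 hV
        have h3 : v / V ≤ 1 := (div_le_one h0).2 hv.2
        constructor <;> linarith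
      · have h2 : 0 ≤ v / V := div_nonneg hv.1 hV
        have h3 : v / V ≤ 1 := (div_le_one h0).2 hv.2
        have h1 : B ((v / V + 1) / 3) = 1 := by
          rw [hB]
          simp only
          rw [cl_of_ge (by linarith), cl_of_ge (by linarith), min_self]
        have h4 : 3 * ((v / V + 1) / 3) - 1 = v / V := by ring
        simp only [h1, hG, h4]
        rw [cl_of_mem ⟨h2, h3⟩, mul_div_cancel₀ _ h0.ne']
        simp

/-- images of functions of bounded variation -/
lemma bv_loop {f : ℝ → ℂ} {a b : ℝ} (hab : a ≤ b)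
    (hf : LocallyBoundedVariationOn f (Icc a b)) : LoopSet (f '' Icc a b) := by
  have ha : a ∈ Icc a b := ⟨le_rfl, hab⟩
  have hb : b ∈ Icc a b := ⟨hab, le_rfl⟩
  set φ := naturalParameterization f (Icc a b) a with hφ
  set v := variationOnFromTo f (Icc a b) a with hv
  have hun := has_unit_speed_naturalParameterization f hf ha
  have hlip : LipschitzOnWith 1 φ (v '' Icc a b) := by
    intro x hx y hy
    rcases le_total x y with hxy | hxy
    · have h1 := eVariationOn.edist_le φ (s := (v '' Icc a b) ∩ Icc x y) ⟨hx, le_rfl, hxy⟩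
        ⟨hy, hxy, le_rfl⟩
      refine h1.trans ?_
      rw [hun hx hy, NNReal.coe_one, one_mul, ENNReal.coe_one, one_mul, edist_dist, Real.dist_eq,
        abs_sub_comm, abs_of_nonneg (by linarith)]
    · have h1 := eVariationOn.edist_le φ (s := (v '' Icc a b) ∩ Icc y x) ⟨hx, hxy, le_rfl⟩
        ⟨hy, le_rfl, hxy⟩
      refine h1.trans ?_
      rw [hun hy hx, NNReal.coe_one, one_mul, ENNReal.coe_one, one_mul, edist_dist, Real.dist_eq,
        abs_of_nonneg (by linarith)]
  obtain ⟨ψ, hψ, hψe⟩ := hlip.extend_finite_dimension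
  have hmono := variationOnFromTo.monotoneOn hf ha
  have hva : v a = 0 := variationOnFromTo.self f _ a
  have hv0 : 0 ≤ v b := by rw [← hva]; exact hmono ha hb hab
  obtain ⟨γ, L, h1, h2, h3, h4⟩ := lip_loop hψ hv0
  refine ⟨γ, L, h1, h2, h3, fun x hx => h4 ?_⟩
  obtain ⟨t, ht, rfl⟩ := hx
  refine ⟨v t, ⟨?_, ?_⟩, ?_⟩
  · rw [← hva]; exact hmono ha ht ht.1
  · exact hmono ht hb ht.2
  · rw [← hψe ⟨t, ht, rfl⟩]
    exact edist_eq_zero.1 (edist_naturalParameterization_eq_zero hf ha ht)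

lemma bv_add {f g : ℝ → ℂ} {s : Set ℝ} (hf : LocallyBoundedVariationOn f s)
    (hg : LocallyBoundedVariationOn g s) : LocallyBoundedVariationOn (fun x => f x + g x) s := by
  intro a b ha hb
  have h1 : eVariationOn (fun x => f x + g x) (s ∩ Icc a b) ≤
      eVariationOn f (s ∩ Icc a b) + eVariationOn g (s ∩ Icc a b) := by
    refine iSup_le ?_
    rintro ⟨n, u, hu, us⟩
    calc ∑ i ∈ Finset.range n, edist (f (u (i + 1)) + g (u (i + 1))) (f (u i) + g (u i))
        ≤ ∑ i ∈ Finset.range n, (edist (f (u (i + 1))) (f (u i)) + edist (g (u (i + 1))) (g (u i))) :=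
          Finset.sum_le_sum fun i _ => edist_add_add_le _ _ _ _
      _ = _ := Finset.sum_add_distrib
      _ ≤ _ := add_le_add (eVariationOn.sum_le hu us) (eVariationOn.sum_le hu us)
  exact ne_top_of_le_ne_top (ENNReal.add_ne_top.2 ⟨hf a b ha hb, hg a b ha hb⟩) h1

lemma bv_mul {f g : ℝ → ℂ} {s : Set ℝ} (hf : LocallyBoundedVariationOn f s)
    (hg : LocallyBoundedVariationOn g s) : LocallyBoundedVariationOn (fun x => f x * g x) s :=
  LocallyBoundedVariationOn.fun_smul hf hg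

lemma bv_const (c : ℂ) (s : Set ℝ) : LocallyBoundedVariationOn (fun _ : ℝ => c) s :=
  (LipschitzWith.const c).locallyBoundedVariationOn s

lemma bv_real {f : ℝ → ℝ} {s : Set ℝ} (hf : LocallyBoundedVariationOn f s) :
    LocallyBoundedVariationOn (fun x => (f x : ℂ)) s :=
  (Complex.isometry_ofReal.lipschitz).comp_locallyBoundedVariationOn hf

/-- a root of `x - r` of bounded variation -/
noncomputable def sq (r : ℂ) (x : ℝ) : ℂ :=
  (Real.sqrt ((‖(x : ℂ) - r‖ + (x - r.re)) / 2) : ℂ) +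
    ((if 0 ≤ r.im then -Complex.I else Complex.I) *
      (Real.sqrt ((‖(x : ℂ) - r‖ - (x - r.re)) / 2) : ℂ))

lemma sq_sq (r : ℂ) (x : ℝ) : sq r x ^ 2 = (x : ℂ) - r := by
  set w : ℝ := ‖(x : ℂ) - r‖ with hw
  set y : ℝ := x - r.re with hy
  have hyw : |y| ≤ w := by
    have h1 := Complex.abs_re_le_norm ((x : ℂ) - r)
    simpa [hy, hw] using h1
  have hw2 : w ^ 2 = y ^ 2 + r.im ^ 2 := by
    rw [hw, Complex.sq_norm, Complex.normSq_apply]
    simp only [Complex.sub_re, Complex.ofReal_re, Complex.sub_im, Complex.ofReal_im, hy]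
    ring
  have h1 : 0 ≤ (w + y) / 2 := by
    have := (abs_le.1 hyw).1
    linarith
  have h2 : 0 ≤ (w - y) / 2 := by
    have := (abs_le.1 hyw).2
    linarith
  have h3 : Real.sqrt ((w + y) / 2) * Real.sqrt ((w - y) / 2) = |r.im| / 2 := by
    rw [← Real.sqrt_mul h1, Real.sqrt_eq_iff_mul_self_eq (mul_nonneg h1 h2) (by positivity)]
    have : |r.im| / 2 * (|r.im| / 2) = r.im ^ 2 / 4 := by
      rw [← sq_abs r.im]; ring
    rw [this]
    have := hw2
    nlinarith
  have h4 : ((Real.sqrt ((w + y) / 2) : ℝ) : ℂ) ^ 2 = (((w + y) / 2 : ℝ) : ℂ) := by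
    rw [← Complex.ofReal_pow, Real.sq_sqrt h1]
  have h5 : ((Real.sqrt ((w - y) / 2) : ℝ) : ℂ) ^ 2 = (((w - y) / 2 : ℝ) : ℂ) := by
    rw [← Complex.ofReal_pow, Real.sq_sqrt h2]
  have h6 : ((Real.sqrt ((w + y) / 2) : ℝ) : ℂ) * ((Real.sqrt ((w - y) / 2) : ℝ) : ℂ) =
      ((|r.im| / 2 : ℝ) : ℂ) := by
    rw [← Complex.ofReal_mul, h3]
  unfold sq
  rw [← hw, ← hy]
  have hI := Complex.I_sq
  apply Complex.ext
  · split_ifs
    · have : ((Real.sqrt ((w + y) / 2) : ℝ) + -Complex.I * ((Real.sqrt ((w - y) / 2) : ℝ) : ℂ)) ^ 2 =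
          (((w + y) / 2 : ℝ) : ℂ) - (((w - y) / 2 : ℝ) : ℂ) - 2 * Complex.I * ((|r.im| / 2 : ℝ) : ℂ) := by
        rw [← h4, ← h5, ← h6]
        linear_combination ((Real.sqrt ((w - y) / 2) : ℝ) : ℂ) ^ 2 * hI
      rw [this]
      simp [hy]
      ring
    · have : ((Real.sqrt ((w + y) / 2) : ℝ) + Complex.I * ((Real.sqrt ((w - y) / 2) : ℝ) : ℂ)) ^ 2 =
          (((w + y) / 2 : ℝ) : ℂ) - (((w - y) / 2 : ℝ) : ℂ) + 2 * Complex.I * ((|r.im| / 2 : ℝ) : ℂ) := by
        rw [← h4, ← h5, ← h6]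
        linear_combination ((Real.sqrt ((w - y) / 2) : ℝ) : ℂ) ^ 2 * hI
      rw [this]
      simp [hy]
      ring
  · split_ifs with him
    · have : ((Real.sqrt ((w + y) / 2) : ℝ) + -Complex.I * ((Real.sqrt ((w - y) / 2) : ℝ) : ℂ)) ^ 2 =
          (((w + y) / 2 : ℝ) : ℂ) - (((w - y) / 2 : ℝ) : ℂ) - 2 * Complex.I * ((|r.im| / 2 : ℝ) : ℂ) := by
        rw [← h4, ← h5, ← h6]
        linear_combination ((Real.sqrt ((w - y) / 2) : ℝ) : ℂ) ^ 2 * hI
      rw [this, abs_of_nonneg him]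
      simp
      ring
    · have : ((Real.sqrt ((w + y) / 2) : ℝ) + Complex.I * ((Real.sqrt ((w - y) / 2) : ℝ) : ℂ)) ^ 2 =
          (((w + y) / 2 : ℝ) : ℂ) - (((w - y) / 2 : ℝ) : ℂ) + 2 * Complex.I * ((|r.im| / 2 : ℝ) : ℂ) := by
        rw [← h4, ← h5, ← h6]
        linear_combination ((Real.sqrt ((w - y) / 2) : ℝ) : ℂ) ^ 2 * hI
      rw [this, abs_of_neg (not_le.1 him)]
      simp
      ring

lemma sq_bv (r : ℂ) (s : Set ℝ) : LocallyBoundedVariationOn (sq r) s := by
  have hl : ∀ x y : ℝ, x ≤ y → |‖(x : ℂ) - r‖ - ‖(y : ℂ) - r‖| ≤ y - x := by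
    intro x y hxy
    refine (abs_norm_sub_norm_le _ _).trans ?_
    have : (x : ℂ) - r - ((y : ℂ) - r) = ((x - y : ℝ) : ℂ) := by push_cast; ring
    rw [this, Complex.norm_real, Real.norm_eq_abs, abs_sub_comm, abs_of_nonneg (by linarith)]
  have h1 : MonotoneOn (fun x : ℝ => Real.sqrt ((‖(x : ℂ) - r‖ + (x - r.re)) / 2)) s := by
    intro x _ y _ hxy
    apply Real.sqrt_le_sqrt
    have := (abs_le.1 (hl x y hxy)).2
    linarith
  have h2 : MonotoneOn (fun x : ℝ => -Real.sqrt ((‖(x : ℂ) - r‖ - (x - r.re)) / 2)) s := by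
    intro x _ y _ hxy
    apply neg_le_neg
    apply Real.sqrt_le_sqrt
    have := (abs_le.1 (hl x y hxy)).1
    linarith
  have h3 := bv_real h1.locallyBoundedVariationOn
  have h4 := bv_real h2.locallyBoundedVariationOn
  have h5 := bv_add h3 (bv_mul (bv_const (-(if 0 ≤ r.im then -Complex.I else Complex.I)) s) h4)
  convert h5 using 1
  funext x
  unfold sq
  push_cast
  ring

/-- polynomials and their roots -/
lemma poly_bv (p : ℂ[X]) (s : Set ℝ) :
    LocallyBoundedVariationOn (fun x : ℝ => p.eval (x : ℂ)) s ∧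
      ∃ y : ℝ → ℂ, LocallyBoundedVariationOn y s ∧ ∀ x : ℝ, y x ^ 2 = p.eval (x : ℂ) := by
  have hp : p = C p.leadingCoeff * (p.roots.map (fun a => X - C a)).prod :=
    (IsAlgClosed.splits p).eq_prod_roots
  have he : ∀ x : ℝ, p.eval (x : ℂ) = p.leadingCoeff * (p.roots.map (fun a => (x : ℂ) - a)).prod := by
    intro x
    conv_lhs => rw [hp]
    rw [eval_mul, eval_C, eval_multiset_prod, Multiset.map_map]
    congr 2
    refine Multiset.map_congr rfl fun a _ => ?_
    simp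
  have key : ∀ m : Multiset ℂ, LocallyBoundedVariationOn
      (fun x : ℝ => (m.map (fun a => (x : ℂ) - a)).prod) s ∧
      LocallyBoundedVariationOn (fun x : ℝ => (m.map (fun a => sq a x)).prod) s := by
    intro m
    induction m using Multiset.induction_on with
    | empty => simp only [Multiset.map_zero, Multiset.prod_zero]; exact ⟨bv_const 1 s, bv_const 1 s⟩
    | cons a m ih =>
      simp only [Multiset.map_cons, Multiset.prod_cons]
      refine ⟨bv_mul ?_ ih.1, bv_mul (sq_bv a s) ih.2⟩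
      have := bv_mul (sq_bv a s) (sq_bv a s)
      convert this using 1
      funext x
      rw [← sq_sq a x, pow_two]
  refine ⟨?_, fun x => (p.leadingCoeff ^ (1 / 2 : ℂ)) * (p.roots.map (fun a => sq a x)).prod, ?_, ?_⟩
  · simp_rw [he]
    exact bv_mul (bv_const _ s) (key _).1
  · exact bv_mul (bv_const _ s) (key _).2
  · intro x
    have h1 : (p.leadingCoeff ^ (1 / 2 : ℂ)) ^ 2 = p.leadingCoeff := by
      rw [← Complex.cpow_nat_mul]
      norm_num
    rw [mul_pow, h1, he, ← Multiset.prod_map_pow]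
    congr 2
    refine Multiset.map_congr rfl fun a _ => ?_
    rw [sq_sq]

/-- the roots of a quadratic equation with polynomial coefficients -/
lemma quad_loop (t d : ℂ[X]) (R : ℝ) :
    LoopSet {r : ℂ | ∃ x : ℝ, |x| ≤ R ∧ r ^ 2 - t.eval (x : ℂ) * r + d.eval (x : ℂ) = 0} := by
  rcases lt_or_ge R 0 with hR | hR
  · refine ⟨fun _ => 0, 0, LipschitzWith.const 0, rfl, rfl, ?_⟩
    rintro r ⟨x, hx, -⟩
    linarith [abs_nonneg x]
  have hRR : -R ≤ R := by linarith
  set D : ℂ[X] := C (1 / 4) * t ^ 2 - d with hD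
  obtain ⟨y, hy, hy2⟩ := (poly_bv D (Icc (-R) R)).2
  have ht := (poly_bv t (Icc (-R) R)).1
  have h1 := bv_add (bv_mul (bv_const (1 / 2) _) ht) hy
  have h2 := bv_add (bv_mul (bv_const (1 / 2) _) ht) (bv_mul (bv_const (-1) _) hy)
  obtain ⟨γ, L, e1, e2, e3, e4⟩ := (bv_loop hRR h1).union (bv_loop hRR h2)
  refine ⟨γ, L, e1, e2, e3, fun r hr => e4 ?_⟩
  obtain ⟨x, hx, hr⟩ := hr
  have hxm : x ∈ Icc (-R) R := abs_le.1 hx
  have h3 : (r - 1 / 2 * t.eval (x : ℂ)) ^ 2 = y x ^ 2 := by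
    rw [hy2, hD]
    simp only [eval_sub, eval_mul, eval_C, eval_pow]
    linear_combination hr
  rcases sq_eq_sq_iff_eq_or_eq_neg.1 h3 with h4 | h4
  · left
    refine ⟨x, hxm, ?_⟩
    simp only
    linear_combination -h4
  · right
    refine ⟨x, hxm, ?_⟩
    simp only
    linear_combination -h4

end Pool.Agent.H259.HA
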