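import Pool.Agent.H259.HA.Mat
import Pool.Graph.R_pool_sql_team_seeded_c8625f6e.K4H63.RC.A6

/-!
# Polynomials of a selfadjoint operator of very small norm modulo the compact operators
-/

set_option autoImplicit false
set_option linter.unusedSectionVars false

open scoped InnerProductSpace ComplexConjugate
open Polynomial Metric Filter Topology

namespace Pool.Agent.H259.HA

open Pool.Agent.H259.RH

section
variable {H : Type} [NormedAddCommGroup H] [InnerProductSpace ℂ H] [CompleteSpace H]

/-- the polynomials `f n` of `K` agree modulo compact operators with operators of very small norm -/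
def Sm (K : H →L[ℂ] H) (f : ℕ → ℂ[X]) : Prop :=
  ∃ B : ℕ → (H →L[ℂ] H), (∀ n, IsCompactOperator (aeval K (f n) - B n : H →L[ℂ] H)) ∧
    ∀ η : ℝ, 0 < η → ∀ᶠ n : ℕ in atTop, ‖B n‖ ≤ η ^ n

variable {K : H →L[ℂ] H}

lemma comp_mul {A B : H →L[ℂ] H} (h : IsCompactOperator A) : IsCompactOperator (A * B : H →L[ℂ] H) :=
  h.comp_clm B

lemma comp_mul' {A B : H →L[ℂ] H} (h : IsCompactOperator B) :
    IsCompactOperator (A * B : H →L[ℂ] H) := h.clm_comp A

lemma comp_poly {f g : ℂ[X]} (h : IsCompactOperator (aeval K f : H →L[ℂ] H)) :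
    IsCompactOperator (aeval K (f * g) : H →L[ℂ] H) := by
  rw [map_mul]
  exact comp_mul h

lemma Sm.congr {f g : ℕ → ℂ[X]} (h : Sm K f)
    (hfg : ∀ᶠ n in atTop, IsCompactOperator (aeval K (g n - f n) : H →L[ℂ] H)) : Sm K g := by
  classical
  obtain ⟨B, hB1, hB2⟩ := h
  refine ⟨fun n => if IsCompactOperator (aeval K (g n - f n) : H →L[ℂ] H) then B n else
    aeval K (g n), fun n => ?_, fun η hη => ?_⟩
  · simp only
    split_ifs with h
    · have e : aeval K (g n) - B n = aeval K (g n - f n) + (aeval K (f n) - B n) := by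
        rw [map_sub]; abel
      rw [e]
      exact h.add (hB1 n)
    · rw [sub_self]
      exact isCompactOperator_zero
  · filter_upwards [hfg, hB2 η hη] with n h1 h2
    rw [if_pos h1]
    exact h2

lemma Sm.congr' {f g : ℕ → ℂ[X]} (h : Sm K f) (hfg : ∀ n, g n = f n) : Sm K g := by
  have : g = f := funext hfg
  rwa [this]

lemma Sm.add {f g : ℕ → ℂ[X]} (hf : Sm K f) (hg : Sm K g) : Sm K fun n => f n + g n := by
  obtain ⟨B, hB1, hB2⟩ := hf
  obtain ⟨D, hD1, hD2⟩ := hg
  refine ⟨fun n => B n + D n, fun n => ?_, fun η hη => ?_⟩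
  · have e : aeval K (f n + g n) - (B n + D n) = (aeval K (f n) - B n) + (aeval K (g n) - D n) := by
      rw [map_add]; abel
    rw [e]
    exact (hB1 n).add (hD1 n)
  · filter_upwards [hB2 (η / 2) (by positivity), hD2 (η / 2) (by positivity),
      eventually_ge_atTop 1] with n h1 h2 h3
    refine (norm_add_le _ _).trans ?_
    have h4 : (η / 2) ^ n + (η / 2) ^ n ≤ η ^ n := by
      obtain ⟨m, rfl⟩ := Nat.exists_eq_add_of_le' h3
      have h5 : (η / 2) ^ m ≤ η ^ m := by gcongr; linarith
      calc (η / 2) ^ (m + 1) + (η / 2) ^ (m + 1) = η * (η / 2) ^ m := by ring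
        _ ≤ η * η ^ m := by gcongr
        _ = _ := by ring
    linarith

lemma Sm.mul {f g : ℕ → ℂ[X]} (hf : Sm K f) (hg : Sm K g) : Sm K fun n => f n * g n := by
  obtain ⟨B, hB1, hB2⟩ := hf
  obtain ⟨D, hD1, hD2⟩ := hg
  refine ⟨fun n => B n * D n, fun n => ?_, fun η hη => ?_⟩
  · have e : aeval K (f n * g n) - B n * D n =
        (aeval K (f n) - B n) * aeval K (g n) + B n * (aeval K (g n) - D n) := by
      rw [map_mul, sub_mul, mul_sub]; abel
    rw [e]
    exact (comp_mul (hB1 n)).add (comp_mul' (hD1 n))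
  · filter_upwards [hB2 η hη, hD2 1 one_pos] with n h1 h2
    refine (norm_mul_le _ _).trans ?_
    rw [one_pow] at h2
    calc ‖B n‖ * ‖D n‖ ≤ η ^ n * 1 := mul_le_mul h1 h2 (norm_nonneg _) (by positivity)
      _ = _ := mul_one _

lemma Sm.const_mul {f : ℕ → ℂ[X]} (hf : Sm K f) (p : ℂ[X]) : Sm K fun n => p * f n := by
  obtain ⟨B, hB1, hB2⟩ := hf
  refine ⟨fun n => aeval K p * B n, fun n => ?_, fun η hη => ?_⟩
  · rw [map_mul, ← mul_sub]
    exact comp_mul' (hB1 n)
  · have h1 : Tendsto (fun n : ℕ => ‖aeval K p‖ * (1 / 2 : ℝ) ^ n) atTop (𝓝 0) := by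
      have := (tendsto_pow_atTop_nhds_zero_of_lt_one (r := (1 / 2 : ℝ)) (by norm_num)
        (by norm_num)).const_mul ‖aeval K p‖
      simpa using this
    filter_upwards [hB2 (η / 2) (by positivity), h1.eventually_lt_const one_pos] with n h2 h3
    refine (norm_mul_le _ _).trans ?_
    calc ‖aeval K p‖ * ‖B n‖ ≤ ‖aeval K p‖ * (η / 2) ^ n := by gcongr
      _ = (‖aeval K p‖ * (1 / 2 : ℝ) ^ n) * η ^ n := by rw [div_eq_mul_one_div, mul_pow]; ring
      _ ≤ 1 * η ^ n := by gcongr
      _ = _ := one_mul _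

lemma Sm.sub {f g : ℕ → ℂ[X]} (hf : Sm K f) (hg : Sm K g) : Sm K fun n => f n - g n := by
  have := hf.add (hg.const_mul (-1))
  refine this.congr' fun n => ?_
  ring

lemma Sm.zero : Sm K fun _ => 0 :=
  ⟨fun _ => 0, fun n => by rw [map_zero, sub_zero]; exact isCompactOperator_zero,
    fun η hη => Filter.Eventually.of_forall fun n => by rw [norm_zero]; positivity⟩

lemma Sm.sum {κ : Type} (s : Finset κ) (f : κ → ℕ → ℂ[X]) (h : ∀ i ∈ s, Sm K (f i)) :
    Sm K fun n => ∑ i ∈ s, f i n := by
  classical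
  induction s using Finset.induction_on with
  | empty => simp only [Finset.sum_empty]; exact Sm.zero
  | insert a s ha ih =>
    simp only [Finset.sum_insert ha]
    exact (h a (Finset.mem_insert_self _ _)).add (ih fun i hi => h i (Finset.mem_insert_of_mem hi))

/-- geometric sequences -/
lemma Sm.compact (hK : IsSelfAdjoint K) {g h : ℂ[X]} (hs : Sm K fun n => g ^ n * h) :
    IsCompactOperator (aeval K (g * h) : H →L[ℂ] H) := by
  obtain ⟨B, hB1, hB2⟩ := hs
  rw [map_mul]
  refine Pool.Agent.K4H63.RC.core2 (aeval K g) (normal_aeval hK g) (aeval K h) B (fun n => ?_) hB2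
  have h1 := hB1 n
  rw [map_mul, map_pow] at h1
  exact h1

lemma compact_of_pow (hK : IsSelfAdjoint K) {g : ℂ[X]} {m : ℕ}
    (h : IsCompactOperator (aeval K (g ^ m) : H →L[ℂ] H)) :
    IsCompactOperator (aeval K g : H →L[ℂ] H) := by
  have h1 : Sm K fun n => g ^ n * 1 := by
    refine Sm.zero.congr ?_
    filter_upwards [eventually_ge_atTop m] with n hn
    rw [mul_one, sub_zero]
    obtain ⟨j, rfl⟩ := Nat.exists_eq_add_of_le hn
    rw [pow_add]
    exact comp_poly h
  have h2 := h1.compact hK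
  rwa [mul_one] at h2

lemma van_cancel (hK : IsSelfAdjoint K) {g : ℂ[X]} (h0 : g.eval 0 = 0) {m : ℕ}
    (h : IsCompactOperator (aeval K (g * X ^ m) : H →L[ℂ] H)) :
    IsCompactOperator (aeval K g : H →L[ℂ] H) := by
  have h1 : (X : ℂ[X]) ∣ g := by rw [X_dvd_iff, coeff_zero_eq_eval_zero, h0]
  obtain ⟨f, hf⟩ := h1
  refine compact_of_pow hK (m := m + 1) ?_
  have e : g ^ (m + 1) = (g * X ^ m) * f ^ m := by
    rw [pow_succ, mul_comm]
    nth_rw 2 [hf]
    rw [mul_pow, mul_assoc]
  rw [e]
  exact comp_poly h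

/-- the symbol is nilpotent modulo the compact operators as soon as its powers are very small -/
def Nil {ι : Type} [Fintype ι] [DecidableEq ι] (K : H →L[ℂ] H) (F : Matrix ι ι ℂ[X]) : Prop :=
  (∀ l m, Sm K fun n => X * (F ^ n) l m * X) →
    ∃ n, n ≠ 0 ∧ ∀ l m, IsCompactOperator (aeval K ((F ^ n) l m) : H →L[ℂ] H)

/-- constant matrices times `X` -/
lemma nil_const {ι : Type} [Fintype ι] [DecidableEq ι] (hK : IsSelfAdjoint K) (A : Matrix ι ι ℂ) :
    Nil K ((A.map fun a => C a * X : Matrix ι ι ℂ[X])) := by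
  intro hs
  have hpow : ∀ n : ℕ, ∀ l m, ((A.map fun a => C a * X : Matrix ι ι ℂ[X]) ^ n) l m =
      C ((A ^ n) l m) * X ^ n := by
    intro n
    induction n with
    | zero =>
      intro l m
      rw [pow_zero, pow_zero, pow_zero, mul_one, Matrix.one_apply, Matrix.one_apply]
      split_ifs <;> simp
    | succ n ih =>
      intro l m
      rw [pow_succ, pow_succ, Matrix.mul_apply, Matrix.mul_apply, map_sum, Finset.sum_mul]
      refine Finset.sum_congr rfl fun j _ => ?_
      rw [ih, Matrix.map_apply, C_mul]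
      ring
  by_cases hroot : ∃ μ, A.charpoly.IsRoot μ ∧ μ ≠ 0
  · obtain ⟨μ, hμ, hμ0⟩ := hroot
    have hdet : (Matrix.scalar ι μ - A).det = 0 := by
      rw [← Matrix.eval_charpoly]
      exact hμ
    obtain ⟨v, hv0, hv⟩ := Matrix.exists_mulVec_eq_zero_iff.2 hdet
    have hAv : A.mulVec v = μ • v := by
      rw [Matrix.sub_mulVec, sub_eq_zero] at hv
      rw [← hv]
      ext i
      simp [Matrix.mulVec, dotProduct, Matrix.diagonal_apply]
    have hAn : ∀ n : ℕ, (A ^ n).mulVec v = μ ^ n • v := by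
      intro n
      induction n with
      | zero => simp
      | succ n ih =>
        rw [pow_succ, ← Matrix.mulVec_mulVec, hAv, Matrix.mulVec_smul, ih, smul_smul, pow_succ,
          mul_comm]
    obtain ⟨l, hl⟩ : ∃ l, v l ≠ 0 := by
      by_contra hcon
      push Not at hcon
      exact hv0 (funext hcon)
    have h1 : Sm K fun n => ∑ m, C ((v l)⁻¹ * v m) *
        (X * ((A.map fun a => C a * X : Matrix ι ι ℂ[X]) ^ n) l m * X) :=
      Sm.sum _ _ fun m _ => (hs l m).const_mul _
    have h2 : Sm K fun n => (C μ * X) ^ n * X ^ 2 := by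
      refine h1.congr' fun n => ?_
      have h3 := congrFun (hAn n) l
      rw [Matrix.mulVec, dotProduct, Pi.smul_apply, smul_eq_mul] at h3
      have h4 : ∑ m, C ((v l)⁻¹ * v m) *
          (X * ((A.map fun a => C a * X : Matrix ι ι ℂ[X]) ^ n) l m * X) =
          C ((v l)⁻¹ * ∑ m, (A ^ n) l m * v m) * X ^ n * X ^ 2 := by
        rw [Finset.mul_sum, map_sum, Finset.sum_mul, Finset.sum_mul]
        refine Finset.sum_congr rfl fun m _ => ?_
        rw [hpow]
        simp only [C_mul]
        ring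
      rw [h4, h3, mul_pow, ← C_pow]
      congr 3
      field_simp
    have h3 := h2.compact hK
    have h4 : IsCompactOperator (aeval K (X ^ 3 : ℂ[X]) : H →L[ℂ] H) := by
      have e : (X ^ 3 : ℂ[X]) = (C μ * X * X ^ 2) * C μ⁻¹ := by
        have : (C μ : ℂ[X]) * C μ⁻¹ = 1 := by rw [← C_mul, mul_inv_cancel₀ hμ0, C_1]
        linear_combination (-X ^ 3 : ℂ[X]) * this
      rw [e]
      exact comp_poly h3
    have h5 : IsCompactOperator (aeval K (X : ℂ[X]) : H →L[ℂ] H) := compact_of_pow hK h4
    refine ⟨1, one_ne_zero, fun l m => ?_⟩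
    rw [hpow, pow_one, pow_one, mul_comm]
    exact comp_poly h5
  · push Not at hroot
    have h1 : A.charpoly = X ^ Fintype.card ι := by
      have hp := (IsAlgClosed.splits A.charpoly).eq_prod_roots_of_monic A.charpoly_monic
      have hn := (IsAlgClosed.splits A.charpoly).natDegree_eq_card_roots
      rw [Matrix.charpoly_natDegree_eq_dim] at hn
      have h2 : A.charpoly.roots = Multiset.replicate (Fintype.card ι) 0 := by
        rw [Multiset.eq_replicate]
        exact ⟨hn.symm, fun r hr => hroot r (mem_roots'.1 hr).2⟩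
      rw [hp, h2, Multiset.map_replicate, Multiset.prod_replicate, C_0, sub_zero]
    have h2 : A ^ Fintype.card ι = 0 := by
      have := Matrix.aeval_self_charpoly A
      rwa [h1, map_pow, aeval_X] at this
    refine ⟨Fintype.card ι + 1, by omega, fun l m => ?_⟩
    rw [hpow, pow_succ, h2, zero_mul, Matrix.zero_apply, C_0, zero_mul, map_zero]
    exact isCompactOperator_zero

/-- two by two blocks -/
def Blk {ι : Type} (σ : ι → ι) (F : Matrix ι ι ℂ[X]) : Prop :=
  ∀ l m, m ≠ l → m ≠ σ l → F l m = 0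

lemma Blk.sum {ι : Type} [Fintype ι] [DecidableEq ι] {σ : ι → ι} {F : Matrix ι ι ℂ[X]}
    (hF : Blk σ F) {l : ι} (hl : σ l ≠ l) (g : ι → ℂ[X]) :
    ∑ j, F l j * g j = F l l * g l + F l (σ l) * g (σ l) := by
  rw [← Finset.sum_subset (Finset.subset_univ ({l, σ l} : Finset ι))]
  · rw [Finset.sum_pair (Ne.symm hl)]
  · intro j _ hj
    rw [Finset.mem_insert, Finset.mem_singleton, not_or] at hj
    rw [hF l j hj.1 hj.2, zero_mul]

lemma Blk.sum' {ι : Type} [Fintype ι] [DecidableEq ι] {σ : ι → ι} {F : Matrix ι ι ℂ[X]}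
    (hF : Blk σ F) {l : ι} (hl : σ l = l) (g : ι → ℂ[X]) :
    ∑ j, F l j * g j = F l l * g l := by
  rw [Finset.sum_eq_single l]
  · intro j _ hj
    rw [hF l j hj (by rw [hl]; exact hj), zero_mul]
  · simp

lemma Blk.mul {ι : Type} [Fintype ι] [DecidableEq ι] {σ : ι → ι} (hσ : ∀ l, σ (σ l) = l)
    {F G : Matrix ι ι ℂ[X]} (hF : Blk σ F) (hG : Blk σ G) : Blk σ (F * G) := by
  intro l m h1 h2
  rw [Matrix.mul_apply]
  by_cases hl : σ l = l
  · rw [hF.sum' hl, hG l m h1 h2, mul_zero]
  · rw [hF.sum hl, hG l m h1 h2, hG (σ l) m h2 (by rw [hσ]; exact h1), mul_zero, mul_zero, add_zero]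

lemma Blk.one {ι : Type} [DecidableEq ι] (σ : ι → ι) :
    Blk σ (1 : Matrix ι ι ℂ[X]) := fun _ _ h1 _ => Matrix.one_apply_ne (Ne.symm h1)

lemma Blk.pow {ι : Type} [Fintype ι] [DecidableEq ι] {σ : ι → ι} (hσ : ∀ l, σ (σ l) = l)
    {F : Matrix ι ι ℂ[X]} (hF : Blk σ F) (n : ℕ) : Blk σ (F ^ n) := by
  induction n with
  | zero => rw [pow_zero]; exact Blk.one σ
  | succ n ih => rw [pow_succ]; exact ih.mul hσ hF

lemma nil_block {ι : Type} [Fintype ι] [DecidableEq ι] (hK : IsSelfAdjoint K) {σ : ι → ι}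
    (hσ : ∀ l, σ (σ l) = l) {F : Matrix ι ι ℂ[X]} (hF : Blk σ F) (h0 : ∀ l m, (F l m).eval 0 = 0) :
    Nil K F := by
  intro hs
  refine ⟨2, two_ne_zero, fun l m => ?_⟩
  by_cases hm : m ≠ l ∧ m ≠ σ l
  · rw [hF.pow hσ 2 l m hm.1 hm.2, map_zero]
    exact isCompactOperator_zero
  by_cases hl : σ l = l
  · have hml : m = l := by
      by_contra hne
      exact hm ⟨hne, by rw [hl]; exact hne⟩
    subst hml
    have hpow : ∀ n : ℕ, (F ^ n) m m = F m m ^ n := by
      intro n
      induction n with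
      | zero => simp
      | succ n ih => rw [pow_succ', Matrix.mul_apply, hF.sum' hl, ih, pow_succ']
    have h1 : Sm K fun n => (F m m) ^ n * X ^ 2 := by
      refine (hs m m).congr' fun n => ?_
      rw [hpow]
      ring
    have h2 := van_cancel hK (h0 m m) (h1.compact hK)
    rw [hpow, sq]
    exact comp_poly h2
  · -- the block
    set l' := σ l with hl'
    have hl2 : σ l' = l := hσ l
    have hl3 : σ l' ≠ l' := by rw [hl2]; exact Ne.symm hl
    set M : Matrix (Fin 2) (Fin 2) ℂ[X] := !![F l l, F l l'; F l' l, F l' l'] with hM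
    have hblk : ∀ n : ℕ, (F ^ n) l l = (M ^ n) 0 0 ∧ (F ^ n) l l' = (M ^ n) 0 1 ∧
        (F ^ n) l' l = (M ^ n) 1 0 ∧ (F ^ n) l' l' = (M ^ n) 1 1 := by
      intro n
      induction n with
      | zero =>
        simp only [pow_zero, Matrix.one_apply_eq]
        refine ⟨trivial, ?_, ?_, trivial⟩
        · rw [Matrix.one_apply_ne (Ne.symm hl)]; simp
        · rw [Matrix.one_apply_ne hl]; simp
      | succ n ih =>
        obtain ⟨i1, i2, i3, i4⟩ := ih
        have hx : ∀ m', (F ^ (n + 1)) l m' = F l l * (F ^ n) l m' + F l l' * (F ^ n) l' m' := by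
          intro m'
          rw [pow_succ', Matrix.mul_apply, hF.sum hl]
        have hy : ∀ m', (F ^ (n + 1)) l' m' = F l' l * (F ^ n) l m' + F l' l' * (F ^ n) l' m' := by
          intro m'
          rw [pow_succ', Matrix.mul_apply, hF.sum hl3, hl2, add_comm]
        have hz : ∀ i j : Fin 2, (M ^ (n + 1)) i j = M i 0 * (M ^ n) 0 j + M i 1 * (M ^ n) 1 j := by
          intro i j
          rw [pow_succ', Matrix.mul_apply, Fin.sum_univ_two]
        have e00 : M 0 0 = F l l := rfl
        have e01 : M 0 1 = F l l' := rfl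
        have e10 : M 1 0 = F l' l := rfl
        have e11 : M 1 1 = F l' l' := rfl
        simp only [hx, hy, hz, i1, i2, i3, i4, e00, e01, e10, e11, and_self]
    set w := M.det with hw
    set t := M.trace with ht
    have hw0 : w.eval 0 = 0 := by
      rw [hw, Matrix.det_fin_two]
      have e00 : M 0 0 = F l l := rfl
      have e01 : M 0 1 = F l l' := rfl
      rw [e00, e01, eval_sub, eval_mul, eval_mul, h0, h0]
      ring
    have ht0 : t.eval 0 = 0 := by
      rw [ht, Matrix.trace_fin_two]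
      have e00 : M 0 0 = F l l := rfl
      have e11 : M 1 1 = F l' l' := rfl
      rw [e00, e11, eval_add, h0, h0, add_zero]
    have hs' : ∀ i j : Fin 2, Sm K fun n => X * (M ^ n) i j * X := by
      intro i j
      fin_cases i <;> fin_cases j
      · exact (hs l l).congr' fun n => by rw [(hblk n).1]; rfl
      · exact (hs l l').congr' fun n => by rw [(hblk n).2.1]; rfl
      · exact (hs l' l).congr' fun n => by rw [(hblk n).2.2.1]; rfl
      · exact (hs l' l').congr' fun n => by rw [(hblk n).2.2.2]; rfl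
    have hwc : IsCompactOperator (aeval K w : H →L[ℂ] H) := by
      have h1 : Sm K fun n => w ^ n * X ^ 4 := by
        refine (((hs' 0 0).mul (hs' 1 1)).sub ((hs' 0 1).mul (hs' 1 0))).congr' fun n => ?_
        rw [hw, ← Matrix.det_pow, Matrix.det_fin_two]
        ring
      exact van_cancel hK hw0 (h1.compact hK)
    have hCH : M ^ 2 = t • M - w • (1 : Matrix (Fin 2) (Fin 2) ℂ[X]) := by
      rw [ht, hw, Matrix.trace_fin_two, Matrix.det_fin_two, sq]
      refine Matrix.ext fun i j => ?_
      rw [Matrix.mul_apply, Fin.sum_univ_two, Matrix.sub_apply, Matrix.smul_apply,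
        Matrix.smul_apply, smul_eq_mul, smul_eq_mul]
      fin_cases i <;> fin_cases j <;>
      · simp only [Fin.zero_eta, Fin.isValue, Fin.mk_one, Matrix.one_apply_eq, mul_one, ne_eq,
          zero_ne_one, one_ne_zero, not_false_eq_true, Matrix.one_apply_ne, mul_zero, sub_zero]
        ring
    have htr : ∀ n : ℕ, w ∣ (M ^ (n + 1)).trace - t ^ (n + 1) := by
      intro n
      induction n with
      | zero => simp [ht]
      | succ n ih =>
        have e : (M ^ (n + 1 + 1)).trace = t * (M ^ (n + 1)).trace - w * (M ^ n).trace := by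
          have : M ^ (n + 1 + 1) = t • M ^ (n + 1) - w • M ^ n := by
            calc M ^ (n + 1 + 1) = M ^ n * M ^ 2 := by rw [← pow_add]
              _ = _ := by
                rw [hCH, mul_sub, mul_smul_comm, mul_smul_comm, mul_one, ← pow_succ]
          rw [this, Matrix.trace_sub, Matrix.trace_smul, Matrix.trace_smul, smul_eq_mul, smul_eq_mul]
        have e2 : (M ^ (n + 1 + 1)).trace - t ^ (n + 1 + 1) =
            t * ((M ^ (n + 1)).trace - t ^ (n + 1)) - w * (M ^ n).trace := by
          rw [e]; ring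
        rw [e2]
        exact dvd_sub (ih.mul_left t) (dvd_mul_right _ _)
    have htc : IsCompactOperator (aeval K t : H →L[ℂ] H) := by
      have h1 : Sm K fun n => t ^ n * X ^ 2 := by
        refine ((hs' 0 0).add (hs' 1 1)).congr ?_
        filter_upwards [eventually_ge_atTop 1] with n hn
        obtain ⟨j, rfl⟩ := Nat.exists_eq_add_of_le' hn
        obtain ⟨q, hq⟩ := htr j
        have e : t ^ (j + 1) * X ^ 2 - (X * (M ^ (j + 1)) 0 0 * X + X * (M ^ (j + 1)) 1 1 * X) =
            w * (-q * X ^ 2) := by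
          rw [Matrix.trace_fin_two] at hq
          linear_combination (-X ^ 2 : ℂ[X]) * hq
        rw [e]
        exact comp_poly hwc
      exact van_cancel hK ht0 (h1.compact hK)
    have hM2 : ∀ i j : Fin 2, IsCompactOperator (aeval K ((M ^ 2) i j) : H →L[ℂ] H) := by
      intro i j
      rw [hCH, Matrix.sub_apply, Matrix.smul_apply, Matrix.smul_apply, smul_eq_mul, smul_eq_mul,
        map_sub]
      exact (comp_poly htc).sub (comp_poly hwc)
    by_cases hml : m = l
    · subst hml
      rw [(hblk 2).1]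
      exact hM2 0 0
    · have hml' : m = l' := by
        by_contra hne
        exact hm ⟨hml, hne⟩
      rw [hml', (hblk 2).2.1]
      exact hM2 0 1

end

end Pool.Agent.H259.HA
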