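import Pool.Agent.H259.RH.Ker
import Pool.Agent.H259.HA.Sm
import Pool.Agent.H259.HA.Curve
import Pool.Agent.H259.HA.Alg0

/-!
# Hyperinvariant subspaces for operators with a matrix symbol
-/

set_option autoImplicit false
set_option linter.unusedSectionVars false

open scoped InnerProductSpace ComplexConjugate
open Polynomial Metric Filter Topology

namespace Pool.Agent.H259.HA

open Pool.Agent.H259.RH Pool.Agent.W402.HI Pool.Agent.K4H63.RC Pool.Agent.K4H63.RD

section
variable {H : Type} [NormedAddCommGroup H] [InnerProductSpace ℂ H] [CompleteSpace H]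

lemma PD.compact {A : H →L[ℂ] H} (h : PD A) : IsCompactOperator A :=
  Pool.Agent.W991.HI.E5.compact_of_decay A h

/-- compact operators -/
lemma hyp_compact {A : H →L[ℂ] H} (h : IsCompactOperator A) : IsScalar A ∨ HasHyp A := by
  by_cases hs : IsScalar A
  · exact Or.inl hs
  · exact Or.inr (Pool.Agent.W577.HI.G1.main H A h hs)

/-- polynomials -/
lemma hyp_aeval {T : H →L[ℂ] H} {q : ℂ[X]} (hq : 0 < q.natDegree)
    (h : IsScalar (aeval T q) ∨ HasHyp (aeval T q)) : IsScalar T ∨ HasHyp T := by
  rcases h with h | ⟨V, h1, h2, h3, h4⟩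
  · exact alg_hyp hq h
  · right
    refine ⟨V, h1, h2, h3, fun Q hQ => h4 Q ?_⟩
    exact Pool.Agent.K4H63.RD.cent_aeval T q Q hQ

/-- a power of `T - c` is compact -/
lemma hyp_pow {T : H →L[ℂ] H} (c : ℂ) {n : ℕ} (hn : n ≠ 0)
    (h : IsCompactOperator ((T - algebraMap ℂ (H →L[ℂ] H) c) ^ n : H →L[ℂ] H)) :
    IsScalar T ∨ HasHyp T := by
  have e : aeval T ((X - C c) ^ n : ℂ[X]) = (T - algebraMap ℂ (H →L[ℂ] H) c) ^ n := by
    rw [map_pow, map_sub, aeval_X, aeval_C]
  refine hyp_aeval (q := (X - C c) ^ n) ?_ ?_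
  · rw [natDegree_pow, natDegree_X_sub_C, mul_one]
    exact Nat.pos_of_ne_zero hn
  · rw [e]
    exact hyp_compact h

/-- quasinilpotent operators -/
lemma small_pow {A : H →L[ℂ] H} (h : spectrum ℂ A ⊆ {0}) (η : ℝ) (hη : 0 < η) :
    ∀ᶠ n : ℕ in atTop, ‖A ^ n‖ ≤ η ^ n := by
  have hrad : spectralRadius ℂ A = 0 := by
    unfold spectralRadius
    rw [ENNReal.iSup_eq_zero]
    intro i
    rw [ENNReal.iSup_eq_zero]
    intro hi
    have := h hi
    rw [Set.mem_singleton_iff] at this
    simp [this]
  have hlim := spectrum.pow_norm_pow_one_div_tendsto_nhds_spectralRadius A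
  rw [hrad] at hlim
  have h3 : (0 : ENNReal) < ENNReal.ofReal η := ENNReal.ofReal_pos.2 hη
  filter_upwards [hlim.eventually_lt_const h3, eventually_gt_atTop 0] with n hn hn0
  have h4 : ‖A ^ n‖ ^ (1 / n : ℝ) < η := (ENNReal.ofReal_lt_ofReal_iff hη).1 hn
  have h5 : (‖A ^ n‖ ^ (1 / n : ℝ)) ^ n ≤ η ^ n :=
    pow_le_pow_left₀ (by positivity) h4.le n
  rwa [one_div, Real.rpow_inv_natCast_pow (norm_nonneg _) hn0.ne'] at h5

variable {ι : Type} [Fintype ι] [DecidableEq ι] (b : HilbertBasis ℕ ℂ H)

/-- the localised components -/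
noncomputable def Jl (z : ι → Circle) (l : ι) : H →L[ℂ] H :=
  U b (z l)⁻¹ * aeval (S b) (eta z l)

/-- quotient data -/
lemma quot_rel {K : H →L[ℂ] H} (h1 : PD (S b * K - K)) (h2 : PD (K * S b - K)) :
    ∃ (Q : Type) (_ : Ring Q) (_ : Algebra ℂ Q) (π : (H →L[ℂ] H) →ₐ[ℂ] Q),
      (∀ x, π x = 0 ↔ PD x) ∧ Rel (π (S b)) (π K) (fun w => π (U b w)) ∧
      ∀ (z : ι → Circle) (F : Matrix ι ι ℂ[X]),
        π (th K (U b) z F) = th (π K) (fun w => π (U b w)) z F := by
  obtain ⟨Q, hQ1, hQ2, π, hπ⟩ := exists_quot (H := H)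
  refine ⟨Q, hQ1, hQ2, π, hπ, ⟨fun z w => ?_, ?_, fun z => ?_, ?_, ?_⟩, fun z F => ?_⟩
  · rw [← map_mul, U_mul]
  · rw [U_one, map_one]
  · rw [← map_mul, U_S, map_smul, map_mul]
  · rw [← map_mul, ← sub_eq_zero, ← map_sub]
    exact (hπ _).2 h1
  · rw [← map_mul, ← sub_eq_zero, ← map_sub]
    exact (hπ _).2 h2
  · unfold th
    simp only [map_sum, map_mul, ← aeval_algHom_apply]

/-- **operators with a matrix symbol** -/
theorem hyp {K : H →L[ℂ] H} (hK : IsSelfAdjoint K) (h1 : PD (S b * K - K)) (h2 : PD (K * S b - K))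
    [Nonempty ι] {z : ι → Circle} (hz : Function.Injective z) {F : Matrix ι ι ℂ[X]} (hF : Van F)
    (c : ℂ) {T : H →L[ℂ] H} (hT : PD (T - (algebraMap ℂ (H →L[ℂ] H) c + th K (U b) z F)))
    {κ : Type} [Fintype κ] (t d : κ → ℂ[X])
    (hroots : ∀ x : ℝ, ∀ r : ℂ, ((F + Matrix.scalar ι (C c)).map (eval (x : ℂ))).charpoly.IsRoot r →
      ∃ i, r ^ 2 - (t i).eval (x : ℂ) * r + (d i).eval (x : ℂ) = 0)
    (hnil : Nil K F) : IsScalar T ∨ HasHyp T := by
  obtain ⟨Q, hQ1, hQ2, π, hπ, hrel, hth⟩ := quot_rel (ι := ι) b h1 h2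
  have hnt : Nontrivial H := by
    refine ⟨⟨b 0, b 1, fun h => ?_⟩⟩
    have := b.orthonormal.linearIndependent.injective h
    omega
  have hTt : π T = algebraMap ℂ Q c + th (π K) (fun w => π (U b w)) z F := by
    have h3 := (hπ _).2 hT
    rw [map_sub, sub_eq_zero, map_add, AlgHom.commutes, hth] at h3
    exact h3
  by_cases hsing : ∃ c₀, spectrum ℂ T = {c₀}
  · -- one point in the spectrum
    obtain ⟨c₀, hc₀⟩ := hsing
    by_cases hKc : IsCompactOperator K
    · -- compact kernels
      refine hyp_pow c one_ne_zero ?_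
      rw [pow_one]
      have e : T - algebraMap ℂ (H →L[ℂ] H) c =
          (T - (algebraMap ℂ (H →L[ℂ] H) c + th K (U b) z F)) + th K (U b) z F := by abel
      rw [e]
      refine (PD.compact hT).add ?_
      have hall : ∀ l m, IsCompactOperator (U b (z l) * aeval K (F l m) * U b (z m)⁻¹ :
          H →L[ℂ] H) := by
        intro l m
        have h0 : (X : ℂ[X]) ∣ F l m := by rw [X_dvd_iff, coeff_zero_eq_eval_zero, hF l m]
        obtain ⟨g, hg⟩ := h0
        rw [hg, map_mul, aeval_X]
        exact comp_mul (comp_mul' (comp_mul hKc))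
      have hsum : ∀ (s : Finset ι) (f : ι → (H →L[ℂ] H)), (∀ i, IsCompactOperator (f i)) →
          IsCompactOperator (∑ i ∈ s, f i : H →L[ℂ] H) := by
        intro s f hf
        classical
        induction s using Finset.induction_on with
        | empty => rw [Finset.sum_empty]; exact isCompactOperator_zero
        | insert a s ha ih => rw [Finset.sum_insert ha]; exact (hf a).add ih
      unfold th
      exact hsum _ _ fun l => hsum _ _ fun m => hall l m
    -- the point is `c`
    have hcc : c₀ = c := by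
      by_contra hne
      have hres : c ∈ resolventSet ℂ T := by
        by_contra hcon
        have hmem : c ∈ spectrum ℂ T := hcon
        rw [hc₀, Set.mem_singleton_iff] at hmem
        exact hne hmem.symm
      rw [spectrum.mem_resolventSet_iff] at hres
      obtain ⟨w, hw⟩ : ∃ w : Circle, ∀ m, (z m)⁻¹ * w ≠ 1 := by
        have hinf : Infinite Circle := by
          refine Set.infinite_univ_iff.1 ?_
          intro hfin
          have h3 : (Set.range (fun n : ℕ => Circle.exp (n : ℝ))).Finite := hfin.subset (Set.subset_univ _)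
          have hinj : Function.Injective (fun n : ℕ => Circle.exp (n : ℝ)) := by
            intro m n hmn
            have h4 : ∃ k : ℤ, (m : ℝ) = n + k * (2 * Real.pi) := by
              have := Circle.exp_eq_exp.1 hmn
              obtain ⟨k, hk⟩ := this
              exact ⟨k, hk⟩
            obtain ⟨k, hk⟩ := h4
            by_cases hk0 : k = 0
            · rw [hk0] at hk
              have : (m : ℝ) = n := by simpa using hk
              exact_mod_cast this
            · exfalso
              have hir := irrational_pi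
              refine hir ⟨((m : ℚ) - n) / (2 * k), ?_⟩
              have hk1 : (k : ℝ) ≠ 0 := by exact_mod_cast hk0
              push_cast
              field_simp
              linarith
          exact Set.infinite_range_of_injective hinj h3
        obtain ⟨w, hw⟩ := (Set.finite_range z).exists_notMem (s := Set.range z)
        refine ⟨w, fun m hm => hw ⟨m, (inv_mul_eq_one.1 hm)⟩⟩
      have hcompw : PD (U b w * K) := by
        obtain ⟨⟨y, yi, hy1, hy2⟩, hy⟩ := hres
        have hy' : y = algebraMap ℂ (H →L[ℂ] H) c - T := hy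
        have h5 : π y * π (U b w * K) = 0 := by
          rw [hy', map_sub, AlgHom.commutes, hTt, sub_add_cancel_left, neg_mul, neg_eq_zero]
          unfold th
          rw [Finset.sum_mul]
          refine Finset.sum_eq_zero fun l _ => ?_
          rw [Finset.sum_mul]
          refine Finset.sum_eq_zero fun m _ => ?_
          rw [map_mul]
          have e : (π (U b (z l)) * aeval (π K) (F l m) * π (U b (z m)⁻¹)) * (π (U b w) * π K) =
              π (U b (z l)) * (aeval (π K) (F l m) * (π (U b (z m)⁻¹) * π (U b w)) * π K) := by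
            simp only [mul_assoc]
          rw [e, hrel.umul, cross' hrel (hw m) (poly_right hrel (hF l m)) hrel.sk, mul_zero]
        rw [← hπ]
        calc π (U b w * K) = π (yi * y) * π (U b w * K) := by rw [hy2, map_one, one_mul]
          _ = π yi * (π y * π (U b w * K)) := by rw [map_mul, mul_assoc]
          _ = 0 := by rw [h5, mul_zero]
      apply hKc
      have e : K = U b w⁻¹ * (U b w * K) := by
        rw [← mul_assoc, U_mul, inv_mul_cancel, U_one, one_mul]
      rw [e]
      exact comp_mul' (PD.compact hcompw)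
    subst hcc
    set A : H →L[ℂ] H := T - algebraMap ℂ (H →L[ℂ] H) c₀ with hA
    have hAs : spectrum ℂ A ⊆ {0} := by
      rw [hA, ← spectrum.sub_singleton_eq, hc₀]
      simp
    have hπA : π A = th (π K) (fun w => π (U b w)) z F := by
      rw [hA, map_sub, AlgHom.commutes, hTt]
      abel
    have hpow : ∀ n, n ≠ 0 → PD (A ^ n - th K (U b) z (F ^ n)) := by
      intro n hn
      rw [← hπ, map_sub, sub_eq_zero, hth, map_pow, hπA, th_pow z hrel hz hF hn]
    have hsm : ∀ l m, Sm K fun n => X * (F ^ n) l m * X := by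
      intro l m
      classical
      have h3 : ∀ n, n ≠ 0 → IsCompactOperator (aeval K (X * (F ^ n) l m * X) -
          K * U b (z l)⁻¹ * A ^ n * (U b (z m) * K) : H →L[ℂ] H) := by
        intro n hn
        refine PD.compact ((hπ _).1 ?_)
        rw [map_sub, sub_eq_zero, ← aeval_algHom_apply]
        rw [← th_comp z hrel hz (hF.pow hn) l m]
        simp only [map_mul, map_pow, hπA]
        rw [th_pow z hrel hz hF hn]
      refine ⟨fun n => if n = 0 then aeval K (X * (F ^ n) l m * X) else
        K * U b (z l)⁻¹ * A ^ n * (U b (z m) * K), fun n => ?_, fun η hη => ?_⟩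
      · simp only
        split_ifs with hn
        · rw [sub_self]
          exact isCompactOperator_zero
        · exact h3 n hn
      · set M : ℝ := ‖K * U b (z l)⁻¹‖ * ‖U b (z m) * K‖ with hM
        have h4 : Tendsto (fun n : ℕ => M * (1 / 2 : ℝ) ^ n) atTop (𝓝 0) := by
          have := (tendsto_pow_atTop_nhds_zero_of_lt_one (r := (1 / 2 : ℝ)) (by norm_num)
            (by norm_num)).const_mul M
          simpa using this
        filter_upwards [small_pow hAs (η / 2) (by positivity), h4.eventually_lt_const one_pos,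
          eventually_gt_atTop 0] with n hn1 hn2 hn3
        rw [if_neg hn3.ne']
        calc ‖K * U b (z l)⁻¹ * A ^ n * (U b (z m) * K)‖
            ≤ ‖K * U b (z l)⁻¹‖ * ‖A ^ n‖ * ‖U b (z m) * K‖ :=
              (norm_mul_le _ _).trans (by gcongr; exact norm_mul_le _ _)
          _ ≤ ‖K * U b (z l)⁻¹‖ * (η / 2) ^ n * ‖U b (z m) * K‖ := by gcongr
          _ = (M * (1 / 2 : ℝ) ^ n) * η ^ n := by
              rw [hM, div_eq_mul_one_div, mul_pow]; ring
          _ ≤ 1 * η ^ n := by gcongr
          _ = _ := one_mul _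
    obtain ⟨n, hn0, hn⟩ := hnil hsm
    refine hyp_pow c₀ hn0 ?_
    have e : A ^ n = (A ^ n - th K (U b) z (F ^ n)) + th K (U b) z (F ^ n) := by abel
    rw [← hA, e]
    refine (PD.compact (hpow n hn0)).add ?_
    have hsum : ∀ (s : Finset ι) (f : ι → (H →L[ℂ] H)), (∀ i, IsCompactOperator (f i)) →
        IsCompactOperator (∑ i ∈ s, f i : H →L[ℂ] H) := by
      intro s f hf
      classical
      induction s using Finset.induction_on with
      | empty => rw [Finset.sum_empty]; exact isCompactOperator_zero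
      | insert a s ha ih => rw [Finset.sum_insert ha]; exact (hf a).add ih
    unfold th
    exact hsum _ _ fun l => hsum _ _ fun m => comp_mul (comp_mul' (hn l m))
  -- several points
  set G : Matrix ι ι ℂ[X] := F + Matrix.scalar ι (C c) with hG
  obtain ⟨γ, L, hγ, -, -, hsub⟩ := loop_union (Finset.univ : Finset κ)
    (fun i => {r : ℂ | ∃ x : ℝ, |x| ≤ ‖K‖ ∧ r ^ 2 - (t i).eval (x : ℂ) * r +
      (d i).eval (x : ℂ) = 0}) (fun i _ => quad_loop _ _ _)
  set E : Set ℂ := γ '' Set.Icc 0 1 with hE
  have hEc : IsCompact E := isCompact_Icc.image hγ.continuous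
  have hEne : E.Nonempty := ⟨γ 0, 0, by simp, rfl⟩
  have hrE : ∀ x : ℝ, |x| ≤ ‖K‖ → ∀ r, (G.map (eval (x : ℂ))).charpoly.IsRoot r → r ∈ E := by
    intro x hx r hr
    obtain ⟨i, hi⟩ := hroots x r hr
    exact hsub (Set.mem_biUnion (Finset.mem_coe.2 (Finset.mem_univ i)) ⟨x, hx, hi⟩)
  obtain ⟨hg1, hg2⟩ := growth hK G hEc hEne hrE
  -- the intertwining
  have hcomp : ∀ l, PD (∑ m, aeval K (G l m) * Jl b z m - Jl b z l * T) := by
    intro l
    rw [← hπ, map_sub, sub_eq_zero]
    have h3 := th_main z hrel hz hF l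
    unfold Jl
    simp only [map_sum, map_mul, ← aeval_algHom_apply]
    rw [hTt, mul_add, h3]
    have h4 : ∀ m, aeval (π K) (G l m) = aeval (π K) (F l m) +
        (if m = l then algebraMap ℂ Q c else 0) := by
      intro m
      rw [hG, Matrix.add_apply, map_add, Matrix.scalar_apply, Matrix.diagonal_apply]
      congr 1
      by_cases hlm : l = m
      · subst hlm; simp
      · rw [if_neg hlm, if_neg (Ne.symm hlm), map_zero]
    simp_rw [h4, add_mul, Finset.sum_add_distrib]
    rw [add_comm]
    congr 1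
    rw [Finset.sum_eq_single l]
    · rw [if_pos rfl, Algebra.commutes]
    · intro m _ hm
      rw [if_neg hm, zero_mul]
    · simp
  set J : H →L[ℂ] GG H ι := stack fun l => Jl b z l with hJ
  have hdecay : PD ((SH K G : GG H ι →L[ℂ] GG H ι).comp J - J.comp T) := by
    have h3 : (SH K G : GG H ι →L[ℂ] GG H ι).comp J - J.comp T =
        stack fun l => (∑ m, aeval K (G l m) * Jl b z m - Jl b z l * T) := by
      refine ContinuousLinearMap.ext fun x => ?_
      ext i
      have e1 : ((SH K G : GG H ι →L[ℂ] GG H ι).comp J - J.comp T) x i =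
          (SH K G (J x) : GG H ι) i - (J (T x)) i := rfl
      have e2 : (stack (fun l => (∑ m, aeval K (G l m) * Jl b z m - Jl b z l * T)) x) i =
          (∑ m, aeval K (G i m) * Jl b z m) x - Jl b z i (T x) := rfl
      rw [e1, e2, SH_eq, mop_apply, _root_.sum_apply]
      rfl
    rw [h3]
    exact PD.stack hcomp
  have hone : (1 : H →L[ℂ] H) = ∑ l, U b (z l) * Jl b z l := by
    have h3 : ∀ l, U b (z l) * Jl b z l = aeval (S b) (eta z l) := by
      intro l
      unfold Jl
      rw [← mul_assoc, U_mul, mul_inv_cancel, U_one, one_mul]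
    simp_rw [h3]
    rw [← map_sum, eta_sum hz, map_one]
  have hbelow : ∃ c : ℝ, 0 < c ∧ ∀ x, c * ‖x‖ ≤ ‖J x‖ := by
    set M : ℝ := 1 + Fintype.card ι with hM
    have hM0 : 0 < M := by positivity
    refine ⟨M⁻¹, by positivity, fun x => ?_⟩
    rw [inv_mul_le_iff₀ hM0]
    have h3 : x = ∑ l, U b (z l) (Jl b z l x) := by
      have h4 := congrArg (fun A : H →L[ℂ] H => A x) hone
      simp only [_root_.sum_apply, mul_apply_eq_comp] at h4
      exact h4
    calc ‖x‖ ≤ ∑ _l : ι, ‖J x‖ := by
          conv_lhs => rw [h3]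
          refine (norm_sum_le _ _).trans (Finset.sum_le_sum fun l _ => ?_)
          rw [U_norm]
          have h5 := PiLp.norm_apply_le (J x) l
          rw [hJ, stack_apply] at h5
          exact h5
      _ = Fintype.card ι * ‖J x‖ := by rw [Finset.sum_const, Finset.card_univ, nsmul_eq_mul]
      _ ≤ M * ‖J x‖ := by
          gcongr
          linarith
  obtain ⟨L', hL'⟩ := left_inverse hbelow
  have hKd := pert_decay (L := L') hdecay
  have hpert := pert (S := SH K G) (A := T) (J := J) hL'
  obtain ⟨W, hW, e, B, he, hB, hI⟩ := intw_range hL' hpert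
  refine transfer e hB (summand_hyp (SH K G) _ γ L hγ hg1 hg2 hKd hI ?_)
  intro c' hc'
  exfalso
  apply hsing
  refine ⟨c', ?_⟩
  rw [← spec_eq e hB]
  exact hc'

end

end Pool.Agent.H259.HA
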