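import Pool.Agent.H259.HA.Core

/-!
# The algebra generated by Hankel operators; general matrices
-/

set_option autoImplicit false
set_option linter.unusedSectionVars false

open scoped InnerProductSpace ComplexConjugate
open Polynomial Metric Filter Topology

namespace Pool.Agent.H259.HA

open Pool.Agent.H259.RH Pool.Agent.W402.HI

section
variable {ι : Type} [Fintype ι] [DecidableEq ι]

lemma exists_eig (A : Matrix ι ι ℂ) {r : ℂ} (hr : A.charpoly.IsRoot r) :
    ∃ v : ι → ℂ, v ≠ 0 ∧ ∀ l, ∑ m, A l m * v m = r * v l := by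
  have hdet : (Matrix.scalar ι r - A).det = 0 := by
    rw [← Matrix.eval_charpoly]
    exact hr
  obtain ⟨v, hv0, hv⟩ := Matrix.exists_mulVec_eq_zero_iff.2 hdet
  refine ⟨v, hv0, fun l => ?_⟩
  have h1 := congrFun hv l
  rw [Matrix.sub_mulVec, Pi.sub_apply, Pi.zero_apply, sub_eq_zero] at h1
  have h2 : (Matrix.scalar ι r).mulVec v l = r * v l := by
    rw [Matrix.scalar_apply, Matrix.mulVec_diagonal]
  rw [h2] at h1
  rw [h1]
  rfl

lemma root_of_eig (A : Matrix ι ι ℂ) {r : ℂ} {v : ι → ℂ} (hv : v ≠ 0)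
    (h : ∀ l, ∑ m, A l m * v m = r * v l) : A.charpoly.IsRoot r := by
  have hdet : (Matrix.scalar ι r - A).det = 0 := by
    refine Matrix.exists_mulVec_eq_zero_iff.1 ⟨v, hv, ?_⟩
    funext l
    rw [Matrix.sub_mulVec, Pi.sub_apply, Pi.zero_apply, sub_eq_zero, Matrix.scalar_apply,
      Matrix.mulVec_diagonal, ← h l]
    rfl
  rw [← Matrix.eval_charpoly] at hdet
  exact hdet

lemma blk_root {σ : ι → ι} (hσ : ∀ l, σ (σ l) = l) {A : Matrix ι ι ℂ}
    (hA : ∀ l m, m ≠ l → m ≠ σ l → A l m = 0) {r : ℂ} (hr : A.charpoly.IsRoot r) :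
    ∃ l, (σ l = l ∧ r = A l l) ∨
      (σ l ≠ l ∧ (r - A l l) * (r - A (σ l) (σ l)) = A l (σ l) * A (σ l) l) := by
  obtain ⟨v, hv0, hv⟩ := exists_eig A hr
  obtain ⟨l, hl⟩ : ∃ l, v l ≠ 0 := by
    by_contra hcon
    push Not at hcon
    exact hv0 (funext hcon)
  refine ⟨l, ?_⟩
  by_cases hs : σ l = l
  · left
    refine ⟨hs, ?_⟩
    have h1 := hv l
    rw [Finset.sum_eq_single l] at h1
    · exact (mul_right_cancel₀ hl h1).symm
    · intro j _ hj
      rw [hA l j hj (by rw [hs]; exact hj), zero_mul]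
    · simp
  · right
    refine ⟨hs, ?_⟩
    have hsum : ∀ p, σ p ≠ p → ∑ m, A p m * v m = A p p * v p + A p (σ p) * v (σ p) := by
      intro p hp
      rw [← Finset.sum_subset (Finset.subset_univ ({p, σ p} : Finset ι))]
      · rw [Finset.sum_pair (Ne.symm hp)]
      · intro j _ hj
        rw [Finset.mem_insert, Finset.mem_singleton, not_or] at hj
        rw [hA p j hj.1 hj.2, zero_mul]
    have h1 := hv l
    rw [hsum l hs] at h1
    have h2 := hv (σ l)
    rw [hsum (σ l) (by rw [hσ]; exact Ne.symm hs), hσ] at h2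
    have h3 : ((r - A l l) * (r - A (σ l) (σ l))) * v l = (A l (σ l) * A (σ l) l) * v l := by
      linear_combination (-(r - A (σ l) (σ l))) * h1 - A l (σ l) * h2
    exact mul_right_cancel₀ hl h3

end

section
variable {H : Type} [NormedAddCommGroup H] [InnerProductSpace ℂ H] [CompleteSpace H]

/-- arbitrary matrices -/
theorem hyp_const (b : HilbertBasis ℕ ℂ H) {ι : Type} [Fintype ι] [DecidableEq ι] [Nonempty ι]
    {K : H →L[ℂ] H} (hK : IsSelfAdjoint K) (h1 : PD (S b * K - K)) (h2 : PD (K * S b - K))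
    {z : ι → Circle} (hz : Function.Injective z) (A : Matrix ι ι ℂ) (c : ℂ) {T : H →L[ℂ] H}
    (hT : PD (T - (algebraMap ℂ (H →L[ℂ] H) c + tt K (U b) z A 1))) : IsScalar T ∨ HasHyp T := by
  set F : Matrix ι ι ℂ[X] := A.map fun a => C a * X with hF
  have hth : th K (U b) z F = tt K (U b) z A 1 := by
    unfold th tt
    refine Finset.sum_congr rfl fun i _ => Finset.sum_congr rfl fun j _ => ?_
    rw [hF, Matrix.map_apply, map_mul, aeval_C, aeval_X, pow_one, Algebra.algebraMap_eq_smul_one,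
      smul_mul_assoc, one_mul, mul_smul_comm, smul_mul_assoc]
  rw [← hth] at hT
  have hV : Van F := by
    intro i j
    rw [hF, Matrix.map_apply]
    simp
  refine hyp b hK h1 h2 hz hV c hT (κ := {μ : ℂ // μ ∈ insert 0 A.charpoly.roots.toFinset})
    (fun μ => 2 * (C c + C (μ : ℂ) * X)) (fun μ => (C c + C (μ : ℂ) * X) ^ 2) ?_
    (nil_const hK A)
  intro x r hr
  have key : ∃ μ : {μ : ℂ // μ ∈ insert 0 A.charpoly.roots.toFinset}, r = c + (μ : ℂ) * x := by
    obtain ⟨v, hv0, hv⟩ := exists_eig _ hr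
    have hv' : ∀ l, (x : ℂ) * ∑ m, A l m * v m = (r - c) * v l := by
      intro l
      have h3 := hv l
      have h4 : ∀ m, ((F + Matrix.scalar ι (C c)).map (eval (x : ℂ))) l m * v m =
          (x : ℂ) * (A l m * v m) + (if m = l then c * v m else 0) := by
        intro m
        rw [Matrix.map_apply, Matrix.add_apply, hF, Matrix.map_apply, eval_add, eval_mul, eval_C,
          eval_X, Matrix.scalar_apply]
        by_cases hlm : m = l
        · subst hlm
          rw [if_pos rfl, Matrix.diagonal_apply_eq, eval_C]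
          ring
        · rw [if_neg hlm, Matrix.diagonal_apply_ne _ (Ne.symm hlm), eval_zero]
          ring
      simp_rw [h4, Finset.sum_add_distrib] at h3
      rw [← Finset.mul_sum, Finset.sum_ite_eq' Finset.univ l, if_pos (Finset.mem_univ l)] at h3
      linear_combination h3
    by_cases hx : (x : ℂ) = 0
    · refine ⟨⟨0, Finset.mem_insert_self _ _⟩, ?_⟩
      obtain ⟨l, hl⟩ : ∃ l, v l ≠ 0 := by
        by_contra hcon
        push Not at hcon
        exact hv0 (funext hcon)
      have h3 := hv' l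
      rw [hx, zero_mul] at h3
      rcases mul_eq_zero.1 h3.symm with h4 | h4
      · rw [hx, mul_zero, add_zero]
        exact sub_eq_zero.1 h4
      · exact absurd h4 hl
    · have hroot : A.charpoly.IsRoot ((r - c) / x) := by
        refine root_of_eig A hv0 fun l => ?_
        rw [div_mul_eq_mul_div, eq_div_iff hx, ← hv' l]
        ring
      refine ⟨⟨(r - c) / x, Finset.mem_insert_of_mem ?_⟩, ?_⟩
      · rw [Multiset.mem_toFinset, mem_roots A.charpoly_monic.ne_zero]
        exact hroot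
      · field_simp
        ring
  obtain ⟨μ, hμ⟩ := key
  refine ⟨μ, ?_⟩
  simp only [eval_mul, eval_add, eval_C, eval_X, eval_pow, eval_ofNat]
  rw [hμ]
  ring

/-- members of the algebra with the frequencies in `Z` -/
def GoodA (b : HilbertBasis ℕ ℂ H) (K : H →L[ℂ] H) (Z : Finset Circle) (T : H →L[ℂ] H) : Prop :=
  ∃ (c : ℂ) (F : Matrix Z Z ℂ[X]), Van F ∧
    (∀ l m : Z, (m : Circle) ≠ l → (m : Circle) ≠ (l : Circle)⁻¹ → F l m = 0) ∧
    PD (T - (algebraMap ℂ (H →L[ℂ] H) c + th K (U b) (fun x : Z => (x : Circle)) F))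

variable {b : HilbertBasis ℕ ℂ H} {K : H →L[ℂ] H} {Z : Finset Circle}

lemma blk_iff (hZ : ∀ x ∈ Z, x⁻¹ ∈ Z) (F : Matrix Z Z ℂ[X]) :
    (∀ l m : Z, (m : Circle) ≠ l → (m : Circle) ≠ (l : Circle)⁻¹ → F l m = 0) ↔
      Blk (fun x : Z => (⟨(x : Circle)⁻¹, hZ x x.2⟩ : Z)) F := by
  constructor
  · intro h l m h1 h2
    refine h l m (fun h3 => h1 (Subtype.ext h3)) (fun h3 => h2 (Subtype.ext h3))
  · intro h l m h1 h2
    refine h l m (fun h3 => h1 (congrArg Subtype.val h3)) (fun h3 => h2 (congrArg Subtype.val h3))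

lemma GoodA.of_pd {B : H →L[ℂ] H} (hB : PD B) : GoodA b K Z B := by
  refine ⟨0, 0, fun i j => by simp, fun _ _ _ _ => rfl, ?_⟩
  have e : B - (algebraMap ℂ (H →L[ℂ] H) 0 + th K (U b) (fun x : Z => (x : Circle)) 0) = B := by
    unfold th
    simp
  rw [e]
  exact hB

lemma GoodA.const (c : ℂ) : GoodA b K Z (algebraMap ℂ (H →L[ℂ] H) c) := by
  refine ⟨c, 0, fun i j => by simp, fun _ _ _ _ => rfl, ?_⟩
  have e : algebraMap ℂ (H →L[ℂ] H) c -
      (algebraMap ℂ (H →L[ℂ] H) c + th K (U b) (fun x : Z => (x : Circle)) 0) = 0 := by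
    unfold th
    simp
  rw [e]
  exact PD.zero

lemma GoodA.add {T T' : H →L[ℂ] H} (h : GoodA b K Z T) (h' : GoodA b K Z T') :
    GoodA b K Z (T + T') := by
  obtain ⟨c, F, hF1, hF2, hF3⟩ := h
  obtain ⟨c', F', hF1', hF2', hF3'⟩ := h'
  refine ⟨c + c', F + F', hF1.add hF1', fun l m h1 h2 => ?_, ?_⟩
  · rw [Matrix.add_apply, hF2 l m h1 h2, hF2' l m h1 h2, add_zero]
  · rw [th_add, map_add]
    have e : T + T' - (algebraMap ℂ (H →L[ℂ] H) c + algebraMap ℂ (H →L[ℂ] H) c' +
        (th K (U b) (fun x : Z => (x : Circle)) F + th K (U b) (fun x : Z => (x : Circle)) F')) =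
        (T - (algebraMap ℂ (H →L[ℂ] H) c + th K (U b) (fun x : Z => (x : Circle)) F)) +
        (T' - (algebraMap ℂ (H →L[ℂ] H) c' + th K (U b) (fun x : Z => (x : Circle)) F')) := by
      abel
    rw [e]
    exact hF3.add hF3'

lemma GoodA.mul (h1 : PD (S b * K - K)) (h2 : PD (K * S b - K)) (hZ : ∀ x ∈ Z, x⁻¹ ∈ Z)
    {T T' : H →L[ℂ] H} (h : GoodA b K Z T) (h' : GoodA b K Z T') : GoodA b K Z (T * T') := by
  classical
  obtain ⟨c, F, hF1, hF2, hF3⟩ := h
  obtain ⟨c', F', hF1', hF2', hF3'⟩ := h'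
  obtain ⟨Q, hQ1, hQ2, π, hπ, hrel, hth⟩ := quot_rel (ι := Z) b h1 h2
  have hinj : Function.Injective (fun x : Z => (x : Circle)) := Subtype.val_injective
  refine ⟨c * c', c • F' + c' • F + F * F', ((hF1'.smul c).add (hF1.smul c')).add hF1.mul, ?_, ?_⟩
  · have hb1 := (blk_iff hZ F).1 hF2
    have hb2 := (blk_iff hZ F').1 hF2'
    have hb3 := hb1.mul (fun l => Subtype.ext (inv_inv _)) hb2
    intro l m hlm1 hlm2
    have h3 := (blk_iff hZ (F * F')).2 hb3 l m hlm1 hlm2
    rw [Matrix.add_apply, Matrix.add_apply, Matrix.smul_apply, Matrix.smul_apply, h3,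
      hF2 l m hlm1 hlm2, hF2' l m hlm1 hlm2, smul_zero, smul_zero, add_zero, add_zero]
  · rw [← hπ] at hF3 hF3' ⊢
    rw [map_sub, map_add, AlgHom.commutes, hth, sub_eq_zero] at hF3 hF3' ⊢
    rw [map_mul, hF3, hF3', th_add, th_add, th_smul, th_smul,
      ← th_mul _ hrel hinj hF1 hF1', map_mul, add_mul, mul_add, mul_add]
    rw [Algebra.algebraMap_eq_smul_one c, Algebra.algebraMap_eq_smul_one c', smul_mul_assoc,
      one_mul, mul_smul_comm, mul_one, smul_mul_assoc, one_mul]
    abel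

/-- Hankel operators -/
lemma GoodA.hankel (hZ : ∀ x ∈ Z, x⁻¹ ∈ Z) {Y : Finset Circle} (hY : Y ⊆ Z) (c : Circle → ℂ)
    {T : H →L[ℂ] H} (hT : PD (T - ∑ z ∈ Y, c z • (U b z * K * U b z))) : GoodA b K Z T := by
  classical
  set c' : Circle → ℂ := fun x => if x ∈ Y then c x else 0 with hc'
  let iv : Z → Z := fun x => ⟨(x : Circle)⁻¹, hZ x x.2⟩
  refine ⟨0, fun l m => if m = iv l then C (c' l) * X else 0, fun l m => ?_, fun l m h1 h2 => ?_, ?_⟩
  · simp only
    split_ifs <;> simp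
  · simp only
    rw [if_neg]
    intro h3
    exact h2 (congrArg Subtype.val h3)
  · have e : th K (U b) (fun x : Z => (x : Circle))
        (fun l m => if m = iv l then C (c' l) * X else 0 : Matrix Z Z ℂ[X]) =
        ∑ z ∈ Y, c z • (U b z * K * U b z) := by
      unfold th
      have h3 : ∀ l : Z, ∑ m : Z, U b (l : Circle) *
          aeval K (if m = iv l then C (c' l) * X else 0 : ℂ[X]) * U b (m : Circle)⁻¹ =
          c' l • (U b (l : Circle) * K * U b (l : Circle)) := by
        intro l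
        rw [Finset.sum_eq_single (iv l)]
        · rw [if_pos rfl, map_mul, aeval_C, aeval_X, Algebra.algebraMap_eq_smul_one,
            smul_mul_assoc, one_mul, mul_smul_comm, smul_mul_assoc]
          have : (((iv l : Z) : Circle))⁻¹ = (l : Circle) := inv_inv _
          rw [this]
        · intro q _ hq
          rw [if_neg hq, map_zero, mul_zero, zero_mul]
        · simp
      simp_rw [h3]
      rw [Finset.sum_coe_sort Z (fun x => c' x • (U b x * K * U b x)), ← Finset.sum_subset hY]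
      · refine Finset.sum_congr rfl fun x hx => ?_
        rw [hc']
        simp only
        rw [if_pos hx]
      · intro x _ hx
        rw [hc']
        simp only
        rw [if_neg hx, zero_smul]
    rw [e, map_zero, zero_add]
    exact hT

/-- members of the algebra have hyperinvariant subspaces -/
theorem GoodA.hyp (hK : IsSelfAdjoint K) (h1 : PD (S b * K - K)) (h2 : PD (K * S b - K))
    (hZ : ∀ x ∈ Z, x⁻¹ ∈ Z) (hne : Z.Nonempty) {T : H →L[ℂ] H} (hT : GoodA b K Z T) :
    IsScalar T ∨ HasHyp T := by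
  classical
  obtain ⟨c, F, hF1, hF2, hF3⟩ := hT
  have hne' : Nonempty Z := hne.to_subtype
  set σ : Z → Z := fun x => ⟨(x : Circle)⁻¹, hZ x x.2⟩ with hσd
  have hσ : ∀ l, σ (σ l) = l := fun l => Subtype.ext (inv_inv _)
  have hblk : Blk σ F := (blk_iff hZ F).1 hF2
  set G : Matrix Z Z ℂ[X] := F + Matrix.scalar Z (C c) with hG
  refine HA.hyp b hK h1 h2 (z := fun x : Z => (x : Circle)) Subtype.val_injective hF1 c hF3
    (κ := Z)
    (fun l => if σ l = l then 2 * G l l else G l l + G (σ l) (σ l))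
    (fun l => if σ l = l then (G l l) ^ 2 else G l l * G (σ l) (σ l) - G l (σ l) * G (σ l) l) ?_
    (nil_block hK hσ hblk hF1)
  intro x r hr
  have hGb : ∀ l m, m ≠ l → m ≠ σ l → (G.map (eval (x : ℂ))) l m = 0 := by
    intro l m h3 h4
    rw [Matrix.map_apply, hG, Matrix.add_apply, hblk l m h3 h4, Matrix.scalar_apply,
      Matrix.diagonal_apply_ne _ (Ne.symm h3), add_zero, eval_zero]
  obtain ⟨l, ⟨hl, h3⟩ | ⟨hl, h3⟩⟩ := blk_root hσ hGb hr
  · refine ⟨l, ?_⟩
    rw [if_pos hl, if_pos hl]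
    rw [Matrix.map_apply] at h3
    simp only [eval_mul, eval_ofNat, eval_pow]
    rw [h3]
    ring
  · refine ⟨l, ?_⟩
    rw [if_neg hl, if_neg hl]
    simp only [Matrix.map_apply] at h3
    simp only [eval_add, eval_sub, eval_mul]
    linear_combination h3

end

end Pool.Agent.H259.HA
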