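import Pool.Agent.H259.RH.Diag
import Pool.Graph.R_seed8.W32.HI.G3

/-!
# Matrices of operators and the resolvent of a matrix polynomial of a selfadjoint operator
-/

set_option autoImplicit false
set_option linter.unusedSectionVars false

open scoped InnerProductSpace ComplexConjugate
open Polynomial Metric

namespace Pool.Agent.H259.HA

open Pool.Agent.H259.RH

section
variable {H : Type} [NormedAddCommGroup H] [InnerProductSpace ℂ H]
variable {ι : Type} [Fintype ι] [DecidableEq ι]

/-- matrices of operators -/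
noncomputable def mop (A : Matrix ι ι (H →L[ℂ] H)) : GG H ι →L[ℂ] GG H ι :=
  ((ee H ι).symm : (ι → H) →L[ℂ] GG H ι).comp
    (ContinuousLinearMap.pi fun i => ∑ j, (A i j).comp ((ContinuousLinearMap.proj j).comp
      (ee H ι : GG H ι →L[ℂ] (ι → H))))

omit [DecidableEq ι] in
lemma mop_apply (A : Matrix ι ι (H →L[ℂ] H)) (x : GG H ι) (i : ι) :
    mop A x i = ∑ j, A i j (x j) := by
  have h : mop A x i = (∑ j, (A i j).comp ((ContinuousLinearMap.proj j).comp
      (ee H ι : GG H ι →L[ℂ] (ι → H)))) x := rfl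
  rw [h, _root_.sum_apply]
  rfl

omit [DecidableEq ι] in
lemma mop_ext {A B : GG H ι →L[ℂ] GG H ι} (h : ∀ x i, A x i = B x i) : A = B := by
  ext x i
  exact h x i

omit [DecidableEq ι] in
lemma mop_mul (A B : Matrix ι ι (H →L[ℂ] H)) : mop (A * B) = mop A * mop B := by
  refine mop_ext fun x i => ?_
  have e : (mop A * mop B) x = mop A (mop B x) := rfl
  rw [e, mop_apply, mop_apply]
  have h1 : ∀ j, (A * B) i j (x j) = ∑ l, A i l (B l j (x j)) := by
    intro j
    rw [Matrix.mul_apply, _root_.sum_apply]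
    rfl
  simp_rw [h1, mop_apply, map_sum]
  exact Finset.sum_comm

omit [DecidableEq ι] in
lemma mop_add (A B : Matrix ι ι (H →L[ℂ] H)) : mop (A + B) = mop A + mop B := by
  refine mop_ext fun x i => ?_
  have e : (mop A + mop B) x i = mop A x i + mop B x i := rfl
  rw [e, mop_apply, mop_apply, mop_apply, ← Finset.sum_add_distrib]
  rfl

lemma mop_diag (A : ι → (H →L[ℂ] H)) : mop (Matrix.diagonal A) = dg A := by
  refine mop_ext fun x i => ?_
  rw [mop_apply, dg_apply, Finset.sum_eq_single i]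
  · rw [Matrix.diagonal_apply_eq]
  · intro j _ hj
    rw [Matrix.diagonal_apply_ne _ (Ne.symm hj)]
    rfl
  · simp

/-- the homomorphism -/
noncomputable def mopHom : Matrix ι ι (H →L[ℂ] H) →ₐ[ℂ] (GG H ι →L[ℂ] GG H ι) where
  toFun := mop
  map_one' := by
    rw [← Matrix.diagonal_one, mop_diag]
    exact map_one (dgHom (H := H) (ι := ι))
  map_mul' := mop_mul
  map_zero' := by
    refine mop_ext fun x i => ?_
    rw [mop_apply]
    simp
  map_add' := mop_add
  commutes' c := by
    have h : (algebraMap ℂ (Matrix ι ι (H →L[ℂ] H))) c =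
        Matrix.diagonal fun _ => algebraMap ℂ (H →L[ℂ] H) c := by
      rw [Matrix.algebraMap_eq_diagonal]
      rfl
    rw [h, mop_diag]
    exact (dgHom (H := H) (ι := ι)).commutes c

lemma norm_stack (A : ι → (H →L[ℂ] H)) : ‖stack A‖ ≤ ∑ i, ‖A i‖ := by
  refine ContinuousLinearMap.opNorm_le_bound _ (by positivity) fun x => ?_
  have h1 : ‖stack A x‖ ≤ ∑ i, ‖stack A x i‖ := by
    have h2 := PiLp.norm_sq_eq_of_L2 (fun _ : ι => H) (stack A x)
    have h3 : ‖stack A x‖ ^ 2 ≤ (∑ i, ‖stack A x i‖) ^ 2 := by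
      rw [h2]
      exact Finset.sum_sq_le_sq_sum_of_nonneg fun i _ => norm_nonneg _
    exact (pow_le_pow_iff_left₀ (norm_nonneg _) (by positivity) two_ne_zero).1 h3
  refine h1.trans ?_
  rw [Finset.sum_mul]
  exact Finset.sum_le_sum fun i _ => (A i).le_opNorm x

lemma norm_mop (A : Matrix ι ι (H →L[ℂ] H)) : ‖mop A‖ ≤ ∑ i, ∑ j, ‖A i j‖ := by
  refine ContinuousLinearMap.opNorm_le_bound _ (by positivity) fun x => ?_
  have h1 : ‖mop A x‖ ≤ ∑ i, ‖mop A x i‖ := by
    have h2 := PiLp.norm_sq_eq_of_L2 (fun _ : ι => H) (mop A x)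
    have h3 : ‖mop A x‖ ^ 2 ≤ (∑ i, ‖mop A x i‖) ^ 2 := by
      rw [h2]
      exact Finset.sum_sq_le_sq_sum_of_nonneg fun i _ => norm_nonneg _
    exact (pow_le_pow_iff_left₀ (norm_nonneg _) (by positivity) two_ne_zero).1 h3
  refine h1.trans ?_
  rw [Finset.sum_mul]
  refine Finset.sum_le_sum fun i _ => ?_
  rw [mop_apply, Finset.sum_mul]
  refine (norm_sum_le _ _).trans (Finset.sum_le_sum fun j _ => ?_)
  refine ((A i j).le_opNorm _).trans ?_
  gcongr
  exact PiLp.norm_apply_le x j

end

section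
variable {H : Type} [NormedAddCommGroup H] [InnerProductSpace ℂ H] [CompleteSpace H]
variable {ι : Type} [Fintype ι] [DecidableEq ι]

/-- matrix polynomials of operators -/
noncomputable def SH (K : H →L[ℂ] H) : Matrix ι ι ℂ[X] →ₐ[ℂ] (GG H ι →L[ℂ] GG H ι) :=
  (mopHom (H := H) (ι := ι)).comp (aeval K : ℂ[X] →ₐ[ℂ] (H →L[ℂ] H)).mapMatrix

lemma SH_eq (K : H →L[ℂ] H) (F : Matrix ι ι ℂ[X]) : SH K F = mop (F.map (aeval K)) := rfl

lemma SH_diag (K : H →L[ℂ] H) (p : ℂ[X]) :
    SH K (p • (1 : Matrix ι ι ℂ[X])) = dg fun _ => aeval K p := by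
  rw [SH_eq, ← mop_diag, ← Matrix.diagonal_one, ← Matrix.diagonal_smul]
  congr 1
  rw [Matrix.diagonal_map (map_zero _)]
  congr 1
  funext i
  simp

lemma SH_scalar (K : H →L[ℂ] H) (z : ℂ) :
    SH K (Matrix.scalar ι (C z)) = algebraMap ℂ (GG H ι →L[ℂ] GG H ι) z := by
  have h : (Matrix.scalar ι (C z) : Matrix ι ι ℂ[X]) = algebraMap ℂ (Matrix ι ι ℂ[X]) z := by
    rw [Matrix.algebraMap_eq_diagonal]
    rfl
  rw [h, AlgHom.commutes]

omit [CompleteSpace H] in
/-- the adjugate is bounded -/
lemma adj_bound (K : H →L[ℂ] H) (F : Matrix ι ι ℂ[X]) (M : ℝ) : ∃ B : ℝ, 0 ≤ B ∧ ∀ z : ℂ,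
    ‖z‖ ≤ M → ‖mop (((Matrix.scalar ι (C z) - F).adjugate).map (aeval K))‖ ≤ B := by
  have hc : ∀ z : ℂ, ∀ i j, (Matrix.scalar ι (C z) - F).adjugate i j =
      ((Matrix.charmatrix F).adjugate i j).eval (C z) := by
    intro z i j
    have h1 := RingHom.map_adjugate (evalRingHom (C z)) (Matrix.charmatrix F)
    have h2 : (evalRingHom (C z)).mapMatrix (Matrix.charmatrix F) = Matrix.scalar ι (C z) - F := by
      ext i j : 2
      rw [RingHom.mapMatrix_apply, Matrix.map_apply, Matrix.charmatrix_apply]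
      rw [coe_evalRingHom, eval_sub, eval_C, Matrix.sub_apply, Matrix.scalar_apply]
      congr 1
      by_cases hij : i = j
      · subst hij; simp
      · simp [Matrix.diagonal_apply_ne _ hij]
    rw [← h2, ← h1]
    rfl
  have hb : ∀ q : ℂ[X][X], ∀ z : ℂ, ‖z‖ ≤ M → ‖aeval K (q.eval (C z))‖ ≤
      ∑ k ∈ q.support, |M| ^ k * ‖aeval K (q.coeff k)‖ := by
    intro q z hz
    rw [eval_eq_sum, sum_def, map_sum]
    refine (norm_sum_le _ _).trans (Finset.sum_le_sum fun k _ => ?_)
    rw [← C_pow, mul_comm, map_mul, aeval_C, Algebra.algebraMap_eq_smul_one, smul_mul_assoc, one_mul,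
      norm_smul, norm_pow]
    gcongr
    exact hz.trans (le_abs_self M)
  refine ⟨∑ i, ∑ j, ∑ k ∈ ((Matrix.charmatrix F).adjugate i j).support,
    |M| ^ k * ‖aeval K (((Matrix.charmatrix F).adjugate i j).coeff k)‖, by positivity, fun z hz => ?_⟩
  refine (norm_mop _).trans (Finset.sum_le_sum fun i _ => Finset.sum_le_sum fun j _ => ?_)
  rw [Matrix.map_apply, hc]
  exact hb _ z hz

/-- lower bounds for characteristic polynomials -/
lemma charpoly_lower (A : Matrix ι ι ℂ) (z : ℂ) {δ : ℝ} (hδ : 0 ≤ δ)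
    (h : ∀ r, A.charpoly.IsRoot r → δ ≤ ‖z - r‖) : δ ^ Fintype.card ι ≤ ‖A.charpoly.eval z‖ := by
  have hs := IsAlgClosed.splits A.charpoly
  have hp := hs.eq_prod_roots_of_monic A.charpoly_monic
  have hn : A.charpoly.natDegree = Multiset.card A.charpoly.roots := hs.natDegree_eq_card_roots
  rw [Matrix.charpoly_natDegree_eq_dim] at hn
  have key : ∀ m : Multiset ℂ, (∀ r ∈ m, δ ≤ ‖z - r‖) →
      δ ^ Multiset.card m ≤ ‖((m.map fun a => X - C a).prod).eval z‖ := by
    intro m
    induction m using Multiset.induction_on with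
    | empty => simp
    | cons a m ih =>
      intro hm
      rw [Multiset.map_cons, Multiset.prod_cons, Multiset.card_cons, eval_mul, norm_mul, pow_succ']
      refine mul_le_mul ?_ (ih fun r hr => hm r (Multiset.mem_cons_of_mem hr)) (by positivity)
        (norm_nonneg _)
      simpa using hm a (Multiset.mem_cons_self a m)
  rw [hn]
  conv_rhs => rw [hp]
  refine key _ fun r hr => h r ?_
  exact (mem_roots'.1 hr).2

/-- polynomials of selfadjoint operators are normal -/
lemma normal_aeval {K : H →L[ℂ] H} (hK : IsSelfAdjoint K) (p : ℂ[X]) :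
    IsStarNormal (aeval K p) := by
  have h1 : ∀ p : ℂ[X], star (aeval K p) = aeval K (p.map (starRingEnd ℂ)) := by
    intro p
    induction p using Polynomial.induction_on' with
    | add p q hp hq => rw [map_add, star_add, hp, hq, Polynomial.map_add, map_add]
    | monomial n a =>
      rw [aeval_monomial, map_monomial, aeval_monomial, star_mul, star_pow, hK.star_eq,
        Algebra.algebraMap_eq_smul_one, Algebra.algebraMap_eq_smul_one, star_smul, star_one,
        mul_smul_comm, mul_one, smul_mul_assoc, one_mul]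
      rfl
  refine ⟨?_⟩
  rw [h1]
  change _ * _ = _ * _
  rw [← map_mul, ← map_mul, mul_comm]

/-- the resolvent -/
theorem growth [Nontrivial H] {K : H →L[ℂ] H} (hK : IsSelfAdjoint K) (F : Matrix ι ι ℂ[X])
    {E : Set ℂ} (hE : IsCompact E) (hEne : E.Nonempty)
    (hr : ∀ x : ℝ, |x| ≤ ‖K‖ → ∀ r, (F.map (eval (x : ℂ))).charpoly.IsRoot r → r ∈ E) :
    (∀ z, z ∉ E → z ∈ resolventSet ℂ (SH (ι := ι) K F)) ∧
    ∃ (B : ℝ) (k : ℕ), ∀ z, z ∉ E → infDist z E ≤ 1 →
      ‖resolvent (SH (ι := ι) K F) z‖ ≤ B / infDist z E ^ k := by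
  -- the determinant
  have hdet : ∀ z x : ℂ, ((Matrix.scalar ι (C z) - F).det).eval x =
      (F.map (eval x)).charpoly.eval z := by
    intro z x
    rw [Matrix.eval_charpoly, ← coe_evalRingHom, RingHom.map_det]
    congr 1
    ext i j
    rw [RingHom.mapMatrix_apply, Matrix.map_apply, Matrix.sub_apply, Matrix.sub_apply,
      Matrix.map_apply, coe_evalRingHom, eval_sub]
    congr 1
    by_cases hij : i = j
    · subst hij; simp
    · simp [Matrix.diagonal_apply_ne _ hij]
  have hinv : ∀ z, z ∉ E → ∃ Ni : H →L[ℂ] H, aeval K ((Matrix.scalar ι (C z) - F).det) * Ni = 1 ∧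
      Ni * aeval K ((Matrix.scalar ι (C z) - F).det) = 1 ∧
      ‖Ni‖ ≤ 1 / infDist z E ^ Fintype.card ι := by
    intro z hz
    have hd : 0 < infDist z E := (hE.isClosed.notMem_iff_infDist_pos hEne).1 hz
    set p := (Matrix.scalar ι (C z) - F).det with hp
    set N := aeval K p with hN
    have hNn : IsStarNormal N := normal_aeval hK p
    have hσ : spectrum ℂ N = (fun k => eval k p) '' spectrum ℂ K :=
      spectrum.map_polynomial_aeval_of_nonempty K p (spectrum.nonempty K)
    have hlow : ∀ w ∈ spectrum ℂ N, infDist z E ^ Fintype.card ι ≤ ‖w‖ := by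
      intro w hw
      rw [hσ] at hw
      obtain ⟨x, hx, rfl⟩ := hw
      have hre := hK.mem_spectrum_eq_re hx
      have hx1 : |x.re| ≤ ‖K‖ := (Complex.abs_re_le_norm _).trans (spectrum.norm_le_norm_of_mem hx)
      change _ ≤ ‖eval x p‖
      rw [hre, hp, hdet]
      refine charpoly_lower _ _ hd.le fun r hroot => ?_
      have h3 := infDist_le_dist_of_mem (x := z) (hr x.re hx1 r hroot)
      rwa [dist_eq_norm] at h3
    have h0 : (0 : ℂ) ∉ spectrum ℂ N := by
      intro h0
      have := hlow 0 h0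
      rw [norm_zero] at this
      exact absurd (pow_pos hd (Fintype.card ι)) (not_lt.2 this)
    have hG3 := Pool.Agent.W32.HI.G3.main H N (spectrum ℂ N) hNn (spectrum.isCompact N)
      (spectrum.nonempty N) subset_rfl 0 h0
    have hnd : infDist z E ^ Fintype.card ι ≤ infDist 0 (spectrum ℂ N) := by
      refine (le_infDist (spectrum.nonempty N)).2 fun y hy => ?_
      rw [dist_zero_left]
      exact hlow y hy
    obtain ⟨h4, h5⟩ := hG3
    rw [spectrum.mem_resolventSet_iff, map_zero, zero_sub] at h4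
    refine ⟨-resolvent N (0 : ℂ), ?_, ?_, ?_⟩
    · have h6 : resolvent N (0 : ℂ) = Ring.inverse (-N) := by rw [resolvent, map_zero, zero_sub]
      rw [h6, mul_neg, ← neg_mul, Ring.mul_inverse_cancel _ h4]
    · have h6 : resolvent N (0 : ℂ) = Ring.inverse (-N) := by rw [resolvent, map_zero, zero_sub]
      rw [h6, neg_mul, ← mul_neg, Ring.inverse_mul_cancel _ h4]
    · rw [norm_neg]
      refine h5.trans ?_
      exact one_div_le_one_div_of_le (pow_pos hd _) hnd
  -- the bound
  obtain ⟨R, hR⟩ := hE.isBounded.exists_norm_le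
  obtain ⟨B, hB0, hB⟩ := adj_bound K F (R + 1)
  have hres : ∀ z, z ∉ E → z ∈ resolventSet ℂ (SH (ι := ι) K F) ∧
      (infDist z E ≤ 1 → ‖resolvent (SH (ι := ι) K F) z‖ ≤
        (B * Fintype.card ι) / infDist z E ^ Fintype.card ι) := by
    intro z hz
    obtain ⟨Ni, h1, h2, h3⟩ := hinv z hz
    set M := Matrix.scalar ι (C z) - F with hM
    have e0 : algebraMap ℂ (GG H ι →L[ℂ] GG H ι) z - SH K F = SH K M := by
      rw [hM, map_sub, SH_scalar]
    have e1 : SH K M * SH K M.adjugate = dg fun _ => aeval K M.det := by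
      rw [← map_mul, Matrix.mul_adjugate, SH_diag]
    have e2 : SH K M.adjugate * SH K M = dg fun _ => aeval K M.det := by
      rw [← map_mul, Matrix.adjugate_mul, SH_diag]
    have e3 : (dg fun _ : ι => aeval K M.det) * (dg fun _ : ι => Ni) = 1 := by
      change dgHom _ * dgHom _ = _
      rw [← map_mul, ← map_one (dgHom (H := H) (ι := ι))]
      congr 1
      funext i
      exact h1
    have e4 : (dg fun _ : ι => Ni) * (dg fun _ : ι => aeval K M.det) = 1 := by
      change dgHom _ * dgHom _ = _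
      rw [← map_mul, ← map_one (dgHom (H := H) (ι := ι))]
      congr 1
      funext i
      exact h2
    have hright : SH K M * (SH K M.adjugate * (dg fun _ : ι => Ni)) = 1 := by
      rw [← mul_assoc, e1, e3]
    have hleft : ((dg fun _ : ι => Ni) * SH K M.adjugate) * SH K M = 1 := by
      rw [mul_assoc, e2, e4]
    have hunit : IsUnit (SH K M : GG H ι →L[ℂ] GG H ι) := by
      refine ⟨⟨SH K M, SH K M.adjugate * (dg fun _ : ι => Ni), hright, ?_⟩, rfl⟩
      have : SH K M.adjugate * (dg fun _ : ι => Ni) = (dg fun _ : ι => Ni) * SH K M.adjugate := by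
        calc SH K M.adjugate * (dg fun _ : ι => Ni)
            = (((dg fun _ : ι => Ni) * SH K M.adjugate) * SH K M) *
                (SH K M.adjugate * (dg fun _ : ι => Ni)) := by rw [hleft, one_mul]
          _ = ((dg fun _ : ι => Ni) * SH K M.adjugate) *
                (SH K M * (SH K M.adjugate * (dg fun _ : ι => Ni))) := by rw [mul_assoc]
          _ = _ := by rw [hright, mul_one]
      rw [this, hleft]
    refine ⟨?_, fun hz1 => ?_⟩
    · rw [spectrum.mem_resolventSet_iff, e0]
      exact hunit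
    · have h6 : resolvent (SH K F) z = SH K M.adjugate * (dg fun _ : ι => Ni) := by
        rw [resolvent, e0]
        have h7 := Ring.inverse_mul_cancel _ hunit
        calc Ring.inverse (SH K M : GG H ι →L[ℂ] GG H ι)
            = Ring.inverse (SH K M) * (SH K M * (SH K M.adjugate * (dg fun _ : ι => Ni))) := by
              rw [hright, mul_one]
          _ = _ := by rw [← mul_assoc, h7, one_mul]
      rw [h6]
      have hzn : ‖z‖ ≤ R + 1 := by
        obtain ⟨y, hy, hyd⟩ := hE.exists_infDist_eq_dist hEne z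
        have h8 : ‖z - y‖ ≤ 1 := by
          rw [← dist_eq_norm, ← hyd]
          exact hz1
        have h9 := norm_add_le (z - y) y
        rw [sub_add_cancel] at h9
        linarith [hR y hy]
      have h8 : ‖(dg fun _ : ι => Ni)‖ ≤ Fintype.card ι * ‖Ni‖ := by
        rw [← mop_diag]
        refine (norm_mop _).trans ?_
        have h9 : ∀ i : ι, ∑ j, ‖(Matrix.diagonal fun _ : ι => Ni) i j‖ = ‖Ni‖ := by
          intro i
          rw [Finset.sum_eq_single i]
          · rw [Matrix.diagonal_apply_eq]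
          · intro j _ hj
            rw [Matrix.diagonal_apply_ne _ (Ne.symm hj), norm_zero]
          · simp
        simp_rw [h9]
        simp
      calc ‖SH K M.adjugate * (dg fun _ : ι => Ni)‖
          ≤ ‖SH K M.adjugate‖ * ‖(dg fun _ : ι => Ni)‖ := norm_mul_le _ _
        _ ≤ B * (Fintype.card ι * (1 / infDist z E ^ Fintype.card ι)) := by
            refine mul_le_mul (hB z hzn) (h8.trans ?_) (norm_nonneg _) hB0
            gcongr
        _ = _ := by ring
  exact ⟨fun z hz => (hres z hz).1, _, _, fun z hz hz1 => (hres z hz).2 hz1⟩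

end

end Pool.Agent.H259.HA
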